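import Mathlib
import Pool.Agent.MP_83cc0d_an.Defs

-- part MP_83cc0d_an.Wick
section

namespace Pool.Agent.MP_83cc0d_an

open MeasureTheory Complex Finset
open scoped InnerProductSpace

noncomputable def J (n : ℕ) (c : ℂ) : ℂ := ∫ x : ℝ, (x : ℂ) ^ n * cexp (-c * (x : ℂ) ^ 2)

lemma J_int (n : ℕ) {c : ℂ} (hc : c.re = 1) :
    Integrable fun x : ℝ => (x : ℂ) ^ n * cexp (-c * (x : ℂ) ^ 2) := by
  have h := (integrable_rpow_mul_exp_neg_mul_sq (b := 1) one_pos (s := n)
    (by have : (0 : ℝ) ≤ n := Nat.cast_nonneg n; linarith)).norm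
  refine h.mono' (by fun_prop) (Filter.Eventually.of_forall fun x => le_of_eq ?_)
  have : (-c * (x : ℂ) ^ 2).re = -1 * x ^ 2 := by
    rw [← ofReal_pow]; simp only [neg_mul, neg_re, mul_re, ofReal_re, ofReal_im, hc]; ring
  rw [norm_mul, norm_mul, Complex.norm_exp, this, Real.rpow_natCast, norm_pow, norm_pow,
    Complex.norm_real, Real.norm_of_nonneg (Real.exp_pos _).le]

lemma J_deriv (n : ℕ) (c : ℂ) (x : ℝ) :
    HasDerivAt (fun x : ℝ => (x : ℂ) ^ n * cexp (-c * (x : ℂ) ^ 2))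
      ((n : ℂ) * ((x : ℂ) ^ (n - 1) * cexp (-c * (x : ℂ) ^ 2)) -
        2 * c * ((x : ℂ) ^ (n + 1) * cexp (-c * (x : ℂ) ^ 2))) x := by
  have h1 : HasDerivAt (fun z : ℂ => z ^ n * cexp (-c * z ^ 2))
      ((n : ℂ) * (x : ℂ) ^ (n - 1) * cexp (-c * (x : ℂ) ^ 2) +
        (x : ℂ) ^ n * (cexp (-c * (x : ℂ) ^ 2) * (-c * (2 * x)))) (x : ℂ) := by
    apply (hasDerivAt_pow n (x : ℂ)).mul
    apply HasDerivAt.cexp
    simpa using (hasDerivAt_pow 2 (x : ℂ)).const_mul (-c)
  convert h1.comp_ofReal using 1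
  ring

lemma J_rec (n : ℕ) {c : ℂ} (hc : c.re = 1) : 2 * c * J (n + 1) c = n * J (n - 1) c := by
  have h := integral_eq_zero_of_hasDerivAt_of_integrable (J_deriv n c)
    (((J_int (n - 1) hc).const_mul _).sub ((J_int (n + 1) hc).const_mul _)) (J_int n hc)
  rw [integral_sub ((J_int (n - 1) hc).const_mul _) ((J_int (n + 1) hc).const_mul _),
    integral_const_mul, integral_const_mul] at h
  unfold J
  linear_combination -h

/-- The weight attached to a complex number of real part one. -/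
noncomputable def kap (c : ℂ) : ℝ := (√‖c‖)⁻¹

lemma one_le_norm {c : ℂ} (hc : c.re = 1) : 1 ≤ ‖c‖ := by
  rw [← hc]; exact re_le_norm c

lemma kap_sq {c : ℂ} (hc : c.re = 1) : kap c ^ 2 * ‖c‖ = 1 := by
  have := one_le_norm hc
  rw [kap, inv_pow, Real.sq_sqrt (by linarith)]
  field_simp

lemma kap_nonneg (c : ℂ) : 0 ≤ kap c := by unfold kap; positivity

lemma kap_le {c : ℂ} (hc : c.re = 1) : kap c ≤ 1 := by
  apply inv_le_one_of_one_le₀
  rw [Real.one_le_sqrt]; exact one_le_norm hc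

lemma J_bound {c : ℂ} (hc : c.re = 1) : ∀ n : ℕ, ‖J n c‖ ≤ 2 * n.factorial * kap c ^ n
  | 0 => by
    have h := integral_gaussian_complex (b := c) (by rw [hc]; exact one_pos)
    have h1 := one_le_norm hc
    simp only [J, pow_zero, one_mul, h, Nat.factorial_zero, Nat.cast_one, mul_one]
    have : ((1 : ℂ) / 2) = ((1 / 2 : ℝ) : ℂ) := by push_cast; rfl
    rw [this, norm_cpow_real, ← Real.sqrt_eq_rpow, Real.sqrt_le_iff]
    refine ⟨by norm_num, ?_⟩
    rw [norm_div, Complex.norm_real, Real.norm_of_nonneg Real.pi_pos.le, div_le_iff₀ (by linarith)]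
    have := Real.pi_le_four
    nlinarith
  | 1 => by
    have h := J_rec 0 hc
    have hc0 : c ≠ 0 := by rintro rfl; simp at hc
    simp only [Nat.cast_zero, zero_mul, mul_eq_zero, hc0, OfNat.ofNat_ne_zero, false_or] at h
    simp only [zero_add] at h
    rw [h, norm_zero]
    have := kap_nonneg c
    positivity
  | n + 2 => by
    have h := congrArg norm (J_rec (n + 1) hc)
    have ih := J_bound hc n
    have h1 := kap_sq hc
    have h2 := kap_nonneg c
    rw [norm_mul, norm_mul, norm_mul, Nat.add_sub_cancel, Complex.norm_natCast,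
      Complex.norm_ofNat] at h
    have h3 : ‖J (n + 1 + 1) c‖ = kap c ^ 2 * ((n + 1 : ℕ) * ‖J n c‖) / 2 := by
      rw [← h]; linear_combination (-‖J (n + 1 + 1) c‖) * h1
    rw [h3, Nat.factorial_succ, Nat.factorial_succ]
    have h4 : kap c ^ 2 * ((n + 1 : ℕ) * ‖J n c‖) ≤
        kap c ^ 2 * ((n + 1 : ℕ) * (2 * n.factorial * kap c ^ n)) := by gcongr
    have h5 : (0 : ℝ) ≤ kap c ^ (n + 2) * ((n + 1 : ℕ) * n.factorial) := by positivity
    have h6 : (0 : ℝ) ≤ n := Nat.cast_nonneg n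
    push_cast at h4 h5 ⊢
    have e : kap c ^ (n + 2) = kap c ^ 2 * kap c ^ n := by ring
    rw [e] at h5 ⊢
    nlinarith

lemma wick_coord {ι κ : Type} [Fintype ι] [Fintype κ] (c : κ → ℂ) (hc : ∀ j, (c j).re = 1)
    (u : ι → κ → ℝ) :
    ‖∫ x : κ → ℝ, (∏ i, ∑ j, ((u i j * x j : ℝ) : ℂ)) * ∏ j, cexp (-c j * (x j : ℂ) ^ 2)‖ ≤
      (2 * (Fintype.card ι).factorial) ^ Fintype.card κ * ∏ i, ∑ j, |u i j| * kap (c j) := by
  classical
  set N : (ι → κ) → κ → ℕ := fun f j => (univ.filter fun i => f i = j).card with hN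
  have key : ∀ {M : Type} [CommMonoid M] (f : ι → κ) (y : κ → M),
      ∏ i, y (f i) = ∏ j, y j ^ N f j := by
    intro M _ f y
    rw [← prod_fiberwise' univ f y]
    simp [hN]
  have e1 : ∀ x : κ → ℝ, (∏ i, ∑ j, ((u i j * x j : ℝ) : ℂ)) * ∏ j, cexp (-c j * (x j : ℂ) ^ 2) =
      ∑ f : ι → κ, (∏ i, (u i (f i) : ℂ)) *
        ∏ j, ((x j : ℂ) ^ N f j * cexp (-c j * (x j : ℂ) ^ 2)) := by
    intro x
    rw [Fintype.prod_sum, sum_mul]
    apply sum_congr rfl
    intro f _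
    rw [prod_mul_distrib, ← key f (fun j => (x j : ℂ))]
    push_cast
    rw [prod_mul_distrib]; ring
  simp_rw [e1]
  have hint : ∀ f : ι → κ, Integrable (fun x : κ → ℝ => (∏ i, (u i (f i) : ℂ)) *
        ∏ j, ((x j : ℂ) ^ N f j * cexp (-c j * (x j : ℂ) ^ 2))) := fun f =>
    (Integrable.fintype_prod
      (f := fun j (x : ℝ) => (x : ℂ) ^ N f j * cexp (-c j * (x : ℂ) ^ 2))
      (fun j => J_int _ (hc j))).const_mul _
  rw [integral_finsetSum _ (fun f _ => hint f), Fintype.prod_sum, mul_sum]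
  refine (norm_sum_le _ _).trans (sum_le_sum fun f _ => ?_)
  rw [integral_const_mul, integral_fintype_prod_volume_eq_prod
    (fun j (x : ℝ) => (x : ℂ) ^ N f j * cexp (-c j * (x : ℂ) ^ 2)), norm_mul, norm_prod, norm_prod,
    prod_mul_distrib, key f (fun j => kap (c j))]
  have h1 : ∏ j, ‖∫ x : ℝ, (x : ℂ) ^ N f j * cexp (-c j * (x : ℂ) ^ 2)‖ ≤
      ∏ j, (2 * (Fintype.card ι).factorial * kap (c j) ^ N f j) := by
    apply prod_le_prod (fun _ _ => norm_nonneg _)
    intro j _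
    refine (J_bound (hc j) _).trans ?_
    have := kap_nonneg (c j)
    gcongr
    exact card_le_univ _
  rw [prod_mul_distrib, prod_const, card_univ] at h1
  simp only [Complex.norm_real, Real.norm_eq_abs]
  have h2 : 0 ≤ ∏ i, |u i (f i)| := prod_nonneg fun _ _ => abs_nonneg _
  calc _ ≤ (∏ i, |u i (f i)|) * ((2 * (Fintype.card ι).factorial) ^ Fintype.card κ *
        ∏ j, kap (c j) ^ N f j) := mul_le_mul_of_nonneg_left h1 h2
    _ = _ := by ring

variable {V : Type} [NormedAddCommGroup V] [InnerProductSpace ℝ V] [FiniteDimensional ℝ V]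
  [MeasurableSpace V] [BorelSpace V]

/-- The properties of the seminorm used in the Gaussian moment bound. -/
structure NP (S : V →ₗ[ℝ] V) (D τ : ℝ) (n : V → ℝ) : Prop where
  nonneg : ∀ u, 0 ≤ n u
  add : ∀ u v, n (u + v) ≤ n u + n v
  smul : ∀ (t : ℝ) u, n (t • u) = |t| * n u
  le : ∀ u, n u ≤ D * ‖u‖
  gain : ∀ z, n (S z) ^ 2 * τ ≤ D ^ 2 * (‖S z‖ * ‖z‖)

lemma wick (ι : Type) [Fintype ι] : ∃ C : ℝ, 0 ≤ C ∧ ∀ (S : V →ₗ[ℝ] V), S.IsSymmetric →
    ∀ τ : ℝ, 0 ≤ τ → ∃ n : V → ℝ, NP S (Module.finrank ℝ V) τ n ∧ ∀ u : ι → V,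
      ‖∫ a : V, (∏ i, ((⟪a, u i⟫_ℝ : ℝ) : ℂ)) *
        cexp (I * τ * (⟪a, S a⟫_ℝ : ℝ) - (‖a‖ ^ 2 : ℝ))‖ ≤ C * ∏ i, n (u i) := by
  refine ⟨(2 * (Fintype.card ι).factorial) ^ Module.finrank ℝ V, by positivity,
    fun S hS τ hτ => ?_⟩
  set e := hS.eigenvectorBasis rfl with he
  set l := hS.eigenvalues rfl with hl
  set c : Fin (Module.finrank ℝ V) → ℂ := fun j => 1 - I * τ * l j with hc
  have hc1 : ∀ j, (c j).re = 1 := fun j => by simp [hc]
  have hrep : ∀ v j, e.repr (S v) j = l j * e.repr v j := fun v j =>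
    hS.eigenvectorBasis_apply_self_apply rfl v j
  have hle : ∀ v j, |e.repr v j| ≤ ‖v‖ := fun v j => by
    rw [e.repr_apply_apply]
    simpa [e.orthonormal.1 j] using abs_real_inner_le_norm (e j) v
  refine ⟨fun u => ∑ j, |e.repr u j| * kap (c j), ⟨fun u => sum_nonneg fun j _ =>
    mul_nonneg (abs_nonneg _) (kap_nonneg _), fun u v => ?_, fun t u => ?_, fun u => ?_,
    fun z => ?_⟩, fun u => ?_⟩
  · rw [← sum_add_distrib]
    apply sum_le_sum; intro j _
    rw [← add_mul]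
    apply mul_le_mul_of_nonneg_right _ (kap_nonneg _)
    simpa using abs_add_le (e.repr u j) (e.repr v j)
  · rw [mul_sum]
    apply sum_congr rfl; intro j _
    simp [abs_mul, mul_assoc]
  · calc _ ≤ ∑ _j : Fin (Module.finrank ℝ V), ‖u‖ := by
          apply sum_le_sum; intro j _
          have := mul_le_mul (hle u j) (kap_le (hc1 j)) (kap_nonneg _) (norm_nonneg _)
          linarith
      _ = _ := by simp
  · have h1 : ∀ j, (|e.repr (S z) j| * kap (c j)) ^ 2 * τ ≤ ‖S z‖ * ‖z‖ := by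
      intro j
      have h2 : τ * |l j| ≤ ‖c j‖ := by
        have := abs_im_le_norm (c j)
        simpa [hc, abs_mul, abs_of_nonneg hτ] using this
      have h3 : kap (c j) ^ 2 * (τ * |l j|) ≤ 1 := by
        rw [← kap_sq (hc1 j)]; gcongr
      have h4 : |e.repr (S z) j| = |l j| * |e.repr z j| := by rw [hrep, abs_mul]
      have h5 := mul_le_mul (hle (S z) j) (hle z j) (abs_nonneg _) (norm_nonneg _)
      calc _ = (kap (c j) ^ 2 * (τ * |l j|)) * (|e.repr (S z) j| * |e.repr z j|) := by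
            rw [mul_pow, sq |e.repr (S z) j|]; nth_rewrite 1 [h4]; ring
        _ ≤ 1 * (‖S z‖ * ‖z‖) := mul_le_mul h3 h5 (by positivity) zero_le_one
        _ = _ := one_mul _
    calc _ ≤ ((univ : Finset (Fin (Module.finrank ℝ V))).card *
          ∑ j, (|e.repr (S z) j| * kap (c j)) ^ 2) * τ :=
          mul_le_mul_of_nonneg_right sq_sum_le_card_mul_sum_sq hτ
      _ = Module.finrank ℝ V * ∑ j, (|e.repr (S z) j| * kap (c j)) ^ 2 * τ := by
          rw [← sum_mul]; simp [mul_assoc]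
      _ ≤ Module.finrank ℝ V * ∑ _j : Fin (Module.finrank ℝ V), ‖S z‖ * ‖z‖ :=
          mul_le_mul_of_nonneg_left (sum_le_sum fun j _ => h1 j) (by positivity)
      _ = _ := by simp; ring
  · have h := wick_coord c hc1 (fun i j => e.repr (u i) j)
    rw [Fintype.card_fin] at h
    refine le_trans (le_of_eq ?_) h
    congr 1
    rw [← e.measurePreserving_repr_symm.integral_comp e.repr.symm.toHomeomorph.measurableEmbedding,
      ← (PiLp.volume_preserving_toLp _).integral_comp (MeasurableEquiv.toLp 2 _).measurableEmbedding]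
    congr 1
    funext x
    set a := e.repr.symm (WithLp.toLp 2 x) with ha
    have hx : ∀ j, e.repr a j = x j := fun j => by simp [ha]
    have hin : ∀ v, ⟪a, v⟫_ℝ = ∑ j, e.repr v j * x j := by
      intro v
      rw [← e.repr.inner_map_map, PiLp.inner_apply]
      simp [hx]
    have hn : ‖a‖ ^ 2 = ∑ j, x j ^ 2 := by
      rw [← real_inner_self_eq_norm_sq, hin]
      simp [hx, sq]
    rw [← Complex.exp_sum, hn, hin (S a)]
    simp only [hin, hrep, hx]
    push_cast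
    congr 2
    rw [mul_sum, ← sum_sub_distrib]
    apply sum_congr rfl; intro j _
    simp only [hc]; ring

end Pool.Agent.MP_83cc0d_an

end

-- part MP_83cc0d_an.Geom
section

namespace Pool.Agent.MP_83cc0d_an

open scoped InnerProductSpace

variable {V : Type} [NormedAddCommGroup V] [InnerProductSpace ℝ V]

noncomputable def sb (b x : V) : V := ‖b‖ ^ 2 • x - ⟪b, x⟫_ℝ • b

noncomputable def ph (a b : V) : ℝ := ‖a‖ ^ 2 * ‖b‖ ^ 2 - ⟪a, b⟫_ℝ ^ 2

noncomputable def Sop (b b' : V) : V →ₗ[ℝ] V where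
  toFun x := sb b x - sb b' x
  map_add' x y := by simp only [sb, inner_add_right]; module
  map_smul' t x := by simp only [sb, inner_smul_right, RingHom.id_apply]; module

lemma Sop_apply (b b' x : V) : Sop b b' x = sb b x - sb b' x := rfl

lemma inner_sb (b x y : V) : ⟪x, sb b y⟫_ℝ = ‖b‖ ^ 2 * ⟪x, y⟫_ℝ - ⟪b, y⟫_ℝ * ⟪b, x⟫_ℝ := by
  simp only [sb, inner_sub_right, inner_smul_right, real_inner_comm x b]

lemma sb_symm (b x y : V) : ⟪sb b x, y⟫_ℝ = ⟪x, sb b y⟫_ℝ := by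
  rw [real_inner_comm, inner_sb, inner_sb, real_inner_comm x y]; ring

lemma Sop_symm (b b' : V) : (Sop b b').IsSymmetric := by
  intro x y
  simp only [Sop_apply, inner_sub_left, inner_sub_right, sb_symm]

lemma inner_sb_self (a b : V) : ⟪a, sb b a⟫_ℝ = ph a b := by
  rw [inner_sb, real_inner_self_eq_norm_sq, ph, real_inner_comm a b]; ring

lemma ph_nonneg (a b : V) : 0 ≤ ph a b := by
  have := abs_real_inner_le_norm a b
  have h2 := sq_le_sq' (abs_le.1 this).1 (abs_le.1 this).2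
  unfold ph; nlinarith

lemma ph_comm (a b : V) : ph a b = ph b a := by
  unfold ph; rw [real_inner_comm]; ring

lemma ph_le (a b : V) : ph a b ≤ ‖a‖ ^ 2 * ‖b‖ ^ 2 := by
  unfold ph; nlinarith [sq_nonneg ⟪a, b⟫_ℝ]

lemma norm_comb (b b' : V) (s t : ℝ) :
    ‖s • b + t • b'‖ ^ 2 = s ^ 2 * ‖b‖ ^ 2 + 2 * s * t * ⟪b, b'⟫_ℝ + t ^ 2 * ‖b'‖ ^ 2 := by
  rw [norm_add_sq_real, norm_smul, norm_smul, inner_smul_left, inner_smul_right, mul_pow, mul_pow]
  simp only [Real.norm_eq_abs, sq_abs, conj_trivial]; ring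

lemma norm_sb_sq (b x : V) : ‖sb b x‖ ^ 2 = ‖b‖ ^ 2 * ph x b := by
  have := norm_comb x b (‖b‖ ^ 2) (-⟪b, x⟫_ℝ)
  rw [sb, sub_eq_add_neg, ← neg_smul, this, ph, real_inner_comm x b]; ring

lemma ph_add (a h b : V) : ph (a + h) b = ph a b + 2 * ⟪h, sb b a⟫_ℝ + ph h b := by
  rw [inner_sb]
  simp only [ph, norm_add_sq_real, inner_add_left, real_inner_comm a h, real_inner_comm a b,
    real_inner_comm h b]
  ring

lemma ph_smul (t : ℝ) (h b : V) : ph (t • h) b = t ^ 2 * ph h b := by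
  simp only [ph, norm_smul, inner_smul_left, mul_pow, Real.norm_eq_abs, sq_abs, conj_trivial]
  ring

lemma delta_sq (b b' : V) :
    (‖b - b'‖ * ‖b + b'‖) ^ 2 = (‖b‖ ^ 2 - ‖b'‖ ^ 2) ^ 2 + 4 * ph b b' := by
  rw [mul_pow, norm_add_sq_real, norm_sub_sq_real, ph]; ring

lemma min_le_delta (b b' : V) : ‖b‖ * min ‖b - b'‖ ‖b + b'‖ ≤ ‖b - b'‖ * ‖b + b'‖ := by
  have h : 2 * ‖b‖ ≤ ‖b - b'‖ + ‖b + b'‖ := by
    have := norm_add_le (b - b') (b + b')
    rwa [show b - b' + (b + b') = (2 : ℝ) • b by module, norm_smul, Real.norm_ofNat] at this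
  rcases le_total ‖b - b'‖ ‖b + b'‖ with h1 | h1
  · rw [min_eq_left h1]; nlinarith [norm_nonneg (b - b')]
  · rw [min_eq_right h1]; nlinarith [norm_nonneg (b + b')]

lemma norm_sb_le (b x : V) : ‖sb b x‖ ≤ ‖b‖ ^ 2 * ‖x‖ := by
  apply abs_le_of_sq_le_sq' _ (by positivity) |>.2
  rw [norm_sb_sq]
  have := ph_le x b
  nlinarith [sq_nonneg ‖b‖]

lemma plane_gain {S : V →ₗ[ℝ] V} {D τ R δ θ : ℝ} {n : V → ℝ} (h : NP S D τ n) {y v : V}
    (hy : S y = θ • v) (hθ : 0 ≤ θ) (hyn : ‖y‖ ≤ 2 * R * δ) :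
    θ * n v ^ 2 * τ ≤ D ^ 2 * (‖v‖ * (2 * R * δ)) := by
  have h0 : 0 ≤ 2 * R * δ := (norm_nonneg _).trans hyn
  rcases hθ.eq_or_lt with rfl | hpos
  · simp only [zero_mul]; positivity
  have := h.gain y
  rw [hy, h.smul, norm_smul, Real.norm_eq_abs, abs_of_pos hpos] at this
  apply le_of_mul_le_mul_left _ hpos
  calc _ = (θ * n v) ^ 2 * τ := by ring
    _ ≤ _ := this
    _ ≤ D ^ 2 * (θ * ‖v‖ * (2 * R * δ)) := by gcongr
    _ = _ := by ring

lemma geom {b b' e : V} {D τ R : ℝ} {n : V → ℝ} (h : NP (Sop b b') D τ n) (hτ : 0 ≤ τ)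
    (hD : 0 ≤ D) (hR : 1 ≤ R) (hb : ‖b‖ ≤ R) (hb' : ‖b'‖ ≤ R) (he : ‖e‖ ≤ 1) :
    (n b * n (sb b e)) ^ 2 * (τ * min ‖b - b'‖ ‖b + b'‖) ≤ 16 * D ^ 4 * R ^ 5 := by
  set m := min ‖b - b'‖ ‖b + b'‖ with hm
  set δ := ‖b - b'‖ * ‖b + b'‖ with hδ
  have hm0 : 0 ≤ m := le_min (norm_nonneg _) (norm_nonneg _)
  have hδ0 : 0 ≤ δ := by positivity
  have hmδ : ‖b‖ * m ≤ δ := min_le_delta b b'
  have hδ2 : δ ^ 2 = (‖b‖ ^ 2 - ‖b'‖ ^ 2) ^ 2 + 4 * ph b b' := delta_sq b b'
  have hθ := ph_nonneg b b'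
  have hb0 := norm_nonneg b
  have hb0' := norm_nonneg b'
  have nb : n b ≤ D * ‖b‖ := h.le b
  have hu : ‖sb b e‖ ≤ R * ‖b‖ := by
    refine (norm_sb_le b e).trans ?_
    calc ‖b‖ ^ 2 * ‖e‖ ≤ ‖b‖ ^ 2 * 1 := by gcongr
      _ ≤ R * ‖b‖ := by nlinarith
  have nu : n (sb b e) ≤ D * (R * R) := (h.le _).trans (by gcongr; exact hu.trans (by gcongr))
  have n0 := h.nonneg b
  have n1 := h.nonneg (sb b e)
  rcases hδ0.eq_or_lt with hz | hpos
  · have : ‖b‖ * m = 0 := le_antisymm (hz ▸ hmδ) (by positivity)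
    rcases mul_eq_zero.1 this with h1 | h1
    · have : n b = 0 := le_antisymm (by simpa [h1] using nb) n0
      rw [this]; simp only [zero_mul, ne_eq, OfNat.ofNat_ne_zero, not_false_eq_true, zero_pow]
      positivity
    · rw [h1]; simp only [mul_zero]; positivity
  have hB : ‖b‖ ^ 2 ≤ R ^ 2 := by gcongr
  have hB' : ‖b'‖ ^ 2 ≤ R ^ 2 := by gcongr
  set Δ := ‖b‖ ^ 2 - ‖b'‖ ^ 2 with hΔ
  have hΔδ : Δ ^ 2 ≤ δ ^ 2 := by linarith
  have hθδ : 4 * ph b b' ≤ δ ^ 2 := by nlinarith [sq_nonneg Δ]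
  have Sb : Sop b b' b = (-‖b'‖ ^ 2) • b + ⟪b, b'⟫_ℝ • b' := by
    simp only [Sop_apply, sb, real_inner_self_eq_norm_sq, real_inner_comm b b']; module
  have Sb' : Sop b b' b' = (-⟪b, b'⟫_ℝ) • b + ‖b‖ ^ 2 • b' := by
    simp only [Sop_apply, sb, real_inner_self_eq_norm_sq]; module
  by_cases hcase : δ ^ 2 ≤ 8 * ph b b'
  · have hy : Sop b b' ((-‖b‖ ^ 2) • b + ⟪b, b'⟫_ℝ • b') = ph b b' • b := by
      rw [map_add, map_smul, map_smul, Sb, Sb', ph]; module
    have hyn : ‖(-‖b‖ ^ 2) • b + ⟪b, b'⟫_ℝ • b'‖ ≤ 2 * R * δ := by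
      apply abs_le_of_sq_le_sq' _ (by positivity) |>.2
      have e : ‖(-‖b‖ ^ 2) • b + ⟪b, b'⟫_ℝ • b'‖ ^ 2 =
          ‖b‖ ^ 2 * Δ ^ 2 + (2 * ‖b‖ ^ 2 - ‖b'‖ ^ 2) * ph b b' := by
        rw [norm_comb, hΔ, ph]; ring
      rw [e]
      have a1 : ‖b‖ ^ 2 * Δ ^ 2 ≤ R ^ 2 * δ ^ 2 := by gcongr
      have a2 : (2 * ‖b‖ ^ 2 - ‖b'‖ ^ 2) * ph b b' ≤ (2 * R ^ 2) * ph b b' :=
        mul_le_mul_of_nonneg_right (by nlinarith) hθ
      nlinarith [mul_le_mul_of_nonneg_left hθδ (sq_nonneg R), sq_nonneg (R * δ)]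
    have g := plane_gain h hy hθ hyn
    have g2 : n b ^ 2 * (τ * m) ≤ 16 * D ^ 2 * R := by
      apply le_of_mul_le_mul_left _ (show 0 < δ ^ 2 by positivity)
      calc δ ^ 2 * (n b ^ 2 * (τ * m)) ≤ 8 * ph b b' * (n b ^ 2 * (τ * m)) := by gcongr
        _ = 8 * m * (ph b b' * n b ^ 2 * τ) := by ring
        _ ≤ 8 * m * (D ^ 2 * (‖b‖ * (2 * R * δ))) := by gcongr
        _ = 16 * D ^ 2 * R * δ * (‖b‖ * m) := by ring
        _ ≤ 16 * D ^ 2 * R * δ * δ := by gcongr
        _ = _ := by ring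
    calc _ = n (sb b e) ^ 2 * (n b ^ 2 * (τ * m)) := by ring
      _ ≤ (D * (R * R)) ^ 2 * (16 * D ^ 2 * R) := by gcongr
      _ = _ := by ring
  · have hΔ2 : δ ^ 2 ≤ 2 * Δ ^ 2 := by linarith
    set u := sb b e with hudef
    have hbu : ⟪b, u⟫_ℝ = 0 := by
      rw [hudef, inner_sb, real_inner_self_eq_norm_sq]; ring
    have hSu : Sop b b' u = Δ • u + ⟪b', u⟫_ℝ • b' := by
      simp only [Sop_apply, sb, hbu, hΔ]; module
    have hp : ⟪b', u⟫_ℝ ^ 2 ≤ ‖b‖ ^ 2 * ph b b' := by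
      rw [hudef, ← sb_symm, ph_comm, ← norm_sb_sq]
      have := abs_real_inner_le_norm (sb b b') e
      have h2 : |⟪sb b b', e⟫_ℝ| ≤ ‖sb b b'‖ := this.trans (by nlinarith [norm_nonneg (sb b b')])
      exact sq_le_sq' (abs_le.1 h2).1 (abs_le.1 h2).2
    have hp' : |⟪b', u⟫_ℝ| ≤ R * δ := by
      apply abs_le_of_sq_le_sq' _ (by positivity) |>.2
      rw [sq_abs]
      refine hp.trans ?_
      calc ‖b‖ ^ 2 * ph b b' ≤ R ^ 2 * δ ^ 2 := by gcongr; nlinarith
        _ = _ := by ring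
    have hΔ' : |Δ| ≤ δ := by
      apply abs_le_of_sq_le_sq' _ hδ0 |>.2
      rwa [sq_abs]
    have hSun : ‖Sop b b' u‖ ≤ 2 * R ^ 2 * δ := by
      rw [hSu]
      refine (norm_add_le _ _).trans ?_
      rw [norm_smul, norm_smul, Real.norm_eq_abs, Real.norm_eq_abs]
      have a1 : |Δ| * ‖u‖ ≤ δ * (R * R) := by gcongr; exact hu.trans (by gcongr)
      have a2 : |⟪b', u⟫_ℝ| * ‖b'‖ ≤ R * δ * R := by gcongr
      linarith [show δ * (R * R) + R * δ * R = 2 * R ^ 2 * δ by ring]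
    have g1 : n (Sop b b' u) ^ 2 * τ ≤ D ^ 2 * (2 * R ^ 2 * δ * (R * ‖b‖)) :=
      (h.gain u).trans (by gcongr)
    have hy : Sop b b' ((-⟪b, b'⟫_ℝ) • b + ‖b'‖ ^ 2 • b') = ph b b' • b' := by
      rw [map_add, map_smul, map_smul, Sb, Sb', ph]; module
    have hyn : ‖(-⟪b, b'⟫_ℝ) • b + ‖b'‖ ^ 2 • b'‖ ≤ 2 * R * δ := by
      apply abs_le_of_sq_le_sq' _ (by positivity) |>.2
      have e : ‖(-⟪b, b'⟫_ℝ) • b + ‖b'‖ ^ 2 • b'‖ ^ 2 =
          ‖b'‖ ^ 2 * Δ ^ 2 + (2 * ‖b'‖ ^ 2 - ‖b‖ ^ 2) * ph b b' := by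
        rw [norm_comb, hΔ, ph]; ring
      rw [e]
      have a1 : ‖b'‖ ^ 2 * Δ ^ 2 ≤ R ^ 2 * δ ^ 2 := by gcongr
      have a2 : (2 * ‖b'‖ ^ 2 - ‖b‖ ^ 2) * ph b b' ≤ (2 * R ^ 2) * ph b b' :=
        mul_le_mul_of_nonneg_right (by nlinarith) hθ
      nlinarith [mul_le_mul_of_nonneg_left hθδ (sq_nonneg R), sq_nonneg (R * δ)]
    have g := plane_gain h hy hθ hyn
    have n2 := h.nonneg b'
    have g2 : (|⟪b', u⟫_ℝ| * n b') ^ 2 * τ ≤ D ^ 2 * (2 * R ^ 2 * δ * (R * ‖b‖)) := by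
      calc _ = ⟪b', u⟫_ℝ ^ 2 * (n b' ^ 2 * τ) := by rw [mul_pow, sq_abs]; ring
        _ ≤ ‖b‖ ^ 2 * ph b b' * (n b' ^ 2 * τ) := by gcongr
        _ = ‖b‖ * ‖b‖ * (ph b b' * n b' ^ 2 * τ) := by ring
        _ ≤ R * ‖b‖ * (D ^ 2 * (‖b'‖ * (2 * R * δ))) := by gcongr
        _ ≤ R * ‖b‖ * (D ^ 2 * (R * (2 * R * δ))) := by gcongr
        _ = _ := by ring
    have g3 : |Δ| * n u ≤ n (Sop b b' u) + |⟪b', u⟫_ℝ| * n b' := by
      have e : Δ • u = Sop b b' u + (-⟪b', u⟫_ℝ) • b' := by rw [hSu]; module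
      rw [← h.smul, e]
      refine (h.add _ _).trans ?_
      rw [h.smul, abs_neg]
    have g4 : Δ ^ 2 * n u ^ 2 ≤ 2 * n (Sop b b' u) ^ 2 + 2 * (|⟪b', u⟫_ℝ| * n b') ^ 2 := by
      have a : (|Δ| * n u) ^ 2 ≤ (n (Sop b b' u) + |⟪b', u⟫_ℝ| * n b') ^ 2 := by gcongr
      rw [mul_pow, sq_abs] at a
      nlinarith [sq_nonneg (n (Sop b b' u) - |⟪b', u⟫_ℝ| * n b')]
    have g5 : n u ^ 2 * (τ * m) ≤ 16 * D ^ 2 * R ^ 3 := by
      apply le_of_mul_le_mul_left _ (show 0 < δ ^ 2 by positivity)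
      calc δ ^ 2 * (n u ^ 2 * (τ * m)) ≤ 2 * Δ ^ 2 * (n u ^ 2 * (τ * m)) := by gcongr
        _ = 2 * m * (Δ ^ 2 * n u ^ 2 * τ) := by ring
        _ ≤ 2 * m * ((2 * n (Sop b b' u) ^ 2 + 2 * (|⟪b', u⟫_ℝ| * n b') ^ 2) * τ) := by gcongr
        _ ≤ 2 * m * (4 * (D ^ 2 * (2 * R ^ 2 * δ * (R * ‖b‖)))) := by
          apply mul_le_mul_of_nonneg_left _ (by positivity); linarith
        _ = 16 * D ^ 2 * R ^ 3 * δ * (‖b‖ * m) := by ring
        _ ≤ 16 * D ^ 2 * R ^ 3 * δ * δ := by gcongr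
        _ = _ := by ring
    calc _ = n b ^ 2 * (n u ^ 2 * (τ * m)) := by ring
      _ ≤ (D * R) ^ 2 * (16 * D ^ 2 * R ^ 3) := by gcongr; exact nb.trans (by gcongr)
      _ = _ := by ring

end Pool.Agent.MP_83cc0d_an

end

-- part MP_83cc0d_an.Frost
section

namespace Pool.Agent.MP_83cc0d_an

open MeasureTheory Filter Topology Metric Module
open scoped ENNReal InnerProductSpace

variable {V : Type} [NormedAddCommGroup V] [InnerProductSpace ℝ V] [FiniteDimensional ℝ V]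
  [MeasurableSpace V] [BorelSpace V]

/-- A finite, boundedly supported measure satisfying a Frostman condition. -/
structure Frost {X : Type} [NormedAddCommGroup X] [MeasurableSpace X] (μ : Measure X) (σ : ℝ) :
    Prop where
  fin : IsFiniteMeasure μ
  bdd : ∃ R : ℝ, ∀ᵐ x ∂μ, ‖x‖ ≤ R
  ball : ∃ C : ℝ, ∀ x r, 0 < r → r ≤ 1 → μ.real (closedBall x r) ≤ C * r ^ σ

lemma Frost.ball' {X : Type} [NormedAddCommGroup X] [MeasurableSpace X] {μ : Measure X} {σ : ℝ}
    (h : Frost μ σ) (hσ : 0 ≤ σ) :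
    ∃ C : ℝ, 0 < C ∧ ∀ x r, 0 < r → μ.real (closedBall x r) ≤ C * r ^ σ := by
  obtain ⟨C, hC⟩ := h.ball
  have := h.fin
  refine ⟨|C| + μ.real Set.univ + 1, by positivity, fun x r hr => ?_⟩
  have h0 : 0 ≤ μ.real Set.univ := measureReal_nonneg
  rcases le_total r 1 with h1 | h1
  · refine (hC x r hr h1).trans (mul_le_mul_of_nonneg_right ?_ (by positivity))
    linarith [le_abs_self C]
  · have h2 := Real.one_le_rpow h1 hσ
    have h3 : μ.real (closedBall x r) ≤ μ.real Set.univ := measureReal_mono (Set.subset_univ _)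
    nlinarith [abs_nonneg C]

lemma Frost.null_subspace {μ : Measure V} {σ : ℝ} (h : Frost μ σ) (F : Submodule ℝ V)
    (hF : (finrank ℝ F : ℝ) < σ) : μ F = 0 := by
  have hσ : 0 < σ := lt_of_le_of_lt (Nat.cast_nonneg _) hF
  have := h.fin
  obtain ⟨C, hC0, hC⟩ := h.ball' hσ.le
  have hC' : ∀ x r, 0 ≤ r → μ.real (closedBall x r) ≤ C * r ^ σ := by
    intro x r hr
    have t : Tendsto (fun s : ℝ => C * s ^ σ) (𝓝[>] r) (𝓝 (C * r ^ σ)) :=
      ((Real.continuousAt_rpow_const r σ (Or.inr hσ.le)).tendsto.const_mul C).mono_left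
        nhdsWithin_le_nhds
    apply ge_of_tendsto t
    filter_upwards [self_mem_nhdsWithin] with s hs
    exact (measureReal_mono (closedBall_subset_closedBall (le_of_lt hs))).trans
      (hC x s (lt_of_le_of_lt hr hs))
  have hle : (ENNReal.ofReal C)⁻¹ • μ ≤ μH[σ] := by
    apply Measure.le_hausdorffMeasure σ _ 1 one_pos
    intro s hs
    rcases s.eq_empty_or_nonempty with rfl | ⟨x, hx⟩
    · simp
    have hne : ediam s ≠ ∞ := ne_top_of_le_ne_top ENNReal.one_ne_top hs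
    have hsub : s ⊆ closedBall x (diam s) := fun y hy => dist_le_diam_of_mem' hne hy hx
    have h1 : μ s ≤ ENNReal.ofReal C * ediam s ^ σ := by
      refine (measure_mono hsub).trans ?_
      rw [← ofReal_measureReal, ← ENNReal.ofReal_toReal hne,
        ENNReal.ofReal_rpow_of_nonneg ENNReal.toReal_nonneg hσ.le, ← ENNReal.ofReal_mul hC0.le]
      exact ENNReal.ofReal_le_ofReal (hC' x _ diam_nonneg)
    rw [Measure.smul_apply, smul_eq_mul,
      ENNReal.inv_mul_le_iff (by simpa using hC0) ENNReal.ofReal_ne_top]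
    exact h1
  have hd : dimH (F : Set V) < (σ.toNNReal : ℝ≥0∞) := by
    have e : (F : Set V) = Subtype.val '' (Set.univ : Set F) := by simp
    rw [e, isometry_subtype_coe.dimH_image, Real.dimH_univ_eq_finrank, ← ENNReal.coe_natCast,
      ENNReal.coe_lt_coe, Real.lt_toNNReal_iff_coe_lt]
    exact hF
  have h0 := hausdorffMeasure_of_dimH_lt hd
  rw [Real.coe_toNNReal _ hσ.le] at h0
  have h1 := hle F
  rw [h0, Measure.smul_apply, smul_eq_mul, nonpos_iff_eq_zero, mul_eq_zero] at h1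
  exact h1.resolve_left (by simp)

lemma Frost.orth_null {μ : Measure V} {σ : ℝ} (h : Frost μ σ) (hσ : (finrank ℝ V : ℝ) < 2 * σ) :
    (μ.prod μ) {p | ⟪p.1, p.2⟫_ℝ = 0} = 0 := by
  have := h.fin
  have hm : MeasurableSet {p : V × V | ⟪p.1, p.2⟫_ℝ = 0} :=
    (isClosed_eq (by fun_prop) continuous_const).measurableSet
  rw [Measure.measure_prod_null hm]
  set P : Submodule ℝ V → Prop := fun F => 0 < μ F with hP
  have hc : {F : {F // Minimal P F} | 0 < μ (F.1 : Set V)}.Countable := by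
    apply Measure.countable_meas_pos_of_disjoint_iUnion₀
    · exact fun F => F.1.closed_of_finiteDimensional.measurableSet.nullMeasurableSet
    · intro F G hFG
      by_contra hc
      have h1 : P (F.1 ⊓ G.1) := pos_iff_ne_zero.2 hc
      exact hFG (Subtype.ext (le_antisymm ((F.2.le_of_le h1 inf_le_left).trans inf_le_right)
        ((G.2.le_of_le h1 inf_le_right).trans inf_le_left)))
  have hnull : μ (⋃ F ∈ {F : {F // Minimal P F} | 0 < μ (F.1 : Set V)}, (F.1ᗮ : Set V)) = 0 := by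
    rw [measure_biUnion_null_iff hc]
    intro F hF
    apply h.null_subspace
    have h1 : σ ≤ finrank ℝ F.1 := by
      by_contra h2
      exact (ne_of_gt hF) (h.null_subspace _ (not_le.1 h2))
    have h2 : (finrank ℝ F.1 : ℝ) + finrank ℝ F.1ᗮ = finrank ℝ V := by
      exact_mod_cast F.1.finrank_add_finrank_orthogonal
    linarith
  filter_upwards [measure_eq_zero_iff_ae_notMem.1 hnull] with a ha
  by_contra hc
  have h1 : P (ℝ ∙ a)ᗮ := by
    refine pos_iff_ne_zero.2 fun h2 => hc ?_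
    rw [Pi.zero_apply, ← h2]
    congr 1
    ext y
    simp [Submodule.mem_orthogonal_singleton_iff_inner_right]
  obtain ⟨F, hF1, hF2⟩ := exists_minimal_le_of_wellFoundedLT P _ h1
  apply ha
  refine Set.mem_biUnion (x := ⟨F, hF2⟩) hF2.1 ?_
  intro y hy
  exact Submodule.mem_orthogonal_singleton_iff_inner_left.1 (hF1 hy)

lemma Frost.proj {μ : Measure V} {σ : ℝ} (h : Frost μ σ) (hσ : 0 ≤ σ) {e : V} (he : e ≠ 0) :
    Frost (μ.map (ℝ ∙ e)ᗮ.orthogonalProjectionOnto) (σ - 1) := by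
  have := h.fin
  obtain ⟨R, hR⟩ := h.bdd
  obtain ⟨C, hC0, hC⟩ := h.ball' hσ
  set K := (ℝ ∙ e)ᗮ with hK
  have hm : Measurable K.orthogonalProjectionOnto := K.orthogonalProjectionOnto.continuous.measurable
  refine ⟨inferInstance, ⟨R, ?_⟩, (2 * |R| + 3) * (C * 2 ^ σ), fun w r hr hr1 => ?_⟩
  · rw [ae_map_iff hm.aemeasurable (isClosed_le continuous_norm continuous_const).measurableSet]
    filter_upwards [hR] with x hx
    exact (K.norm_orthogonalProjectionOnto_apply_le x).trans hx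
  · rw [map_measureReal_apply hm measurableSet_closedBall]
    have hen : 0 < ‖e‖ := norm_pos_iff.2 he
    set N : ℤ := ⌈|R| / r⌉ with hN
    have hN0 : 0 ≤ N := Int.ceil_nonneg (by positivity)
    have hcov : ∀ x, ‖x‖ ≤ R → x ∈ K.orthogonalProjectionOnto ⁻¹' closedBall w r →
        x ∈ ⋃ i ∈ Finset.Icc (-N) N, closedBall ((w : V) + ((i : ℝ) * r / ‖e‖) • e) (2 * r) := by
      intro x hx hxw
      set t := ⟪e, x⟫_ℝ / ‖e‖ with ht
      have htR : |t| ≤ |R| := by
        rw [ht, abs_div, abs_of_pos hen, div_le_iff₀ hen]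
        have := abs_real_inner_le_norm e x
        nlinarith [le_abs_self R]
      have hxe : x = (K.orthogonalProjectionOnto x : V) + (t / ‖e‖) • e := by
        have h1 : (K.orthogonalProjectionOnto x : V) = x - (ℝ ∙ e).starProjection x :=
          Submodule.starProjection_orthogonal_val x
        rw [h1, Submodule.starProjection_singleton, ht, div_div, ← sq]
        simp
      have h1 : |R| / r ≤ N := Int.le_ceil _
      have h2 := abs_le.1 htR
      have h3 : -(|R| / r) ≤ t / r := by rw [← neg_div]; gcongr; exact h2.1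
      have h4 : t / r ≤ |R| / r := by gcongr; exact h2.2
      refine Set.mem_biUnion (x := ⌊t / r⌋) (Finset.mem_coe.2 (Finset.mem_Icc.2 ⟨?_, ?_⟩)) ?_
      · rw [Int.le_floor]; push_cast; linarith
      · have : (⌊t / r⌋ : ℝ) ≤ N := (Int.floor_le _).trans (h4.trans h1)
        exact_mod_cast this
      · rw [mem_closedBall, dist_eq_norm]
        have e1 : x - ((w : V) + ((⌊t / r⌋ : ℝ) * r / ‖e‖) • e) =
            ((K.orthogonalProjectionOnto x - w : K) : V) + ((t - ⌊t / r⌋ * r) / ‖e‖) • e := by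
          nth_rewrite 1 [hxe]
          rw [sub_div, Submodule.coe_sub]; module
        rw [e1]
        refine (norm_add_le _ _).trans ?_
        have e2 : ‖((K.orthogonalProjectionOnto x - w : K) : V)‖ ≤ r := by
          rw [← Submodule.coe_norm, ← dist_eq_norm]; exact hxw
        have f1 := Int.floor_le (t / r)
        have f2 := Int.lt_floor_add_one (t / r)
        rw [le_div_iff₀ hr] at f1
        rw [div_lt_iff₀ hr] at f2
        rw [norm_smul, Real.norm_eq_abs, abs_div, abs_of_pos hen, div_mul_cancel₀ _ hen.ne',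
          abs_of_nonneg (by linarith)]
        linarith
    calc _ ≤ μ.real (⋃ i ∈ Finset.Icc (-N) N,
          closedBall ((w : V) + ((i : ℝ) * r / ‖e‖) • e) (2 * r)) := by
          apply ENNReal.toReal_mono (measure_ne_top _ _)
          apply measure_mono_ae
          filter_upwards [hR] with x hx using hcov x hx
      _ ≤ ∑ i ∈ Finset.Icc (-N) N,
          μ.real (closedBall ((w : V) + ((i : ℝ) * r / ‖e‖) • e) (2 * r)) :=
          measureReal_biUnion_finset_le _ _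
      _ ≤ ∑ _i ∈ Finset.Icc (-N) N, C * (2 * r) ^ σ :=
          Finset.sum_le_sum fun i _ => hC _ _ (by positivity)
      _ = (2 * N + 1 : ℝ) * (C * (2 * r) ^ σ) := by
          rw [Finset.sum_const, Int.card_Icc, nsmul_eq_mul]
          congr 1
          have : ((N + 1 - -N).toNat : ℤ) = 2 * N + 1 := by omega
          exact_mod_cast this
      _ ≤ ((2 * |R| + 3) / r) * (C * (2 * r) ^ σ) := by
          gcongr
          have h1 : (N : ℝ) < |R| / r + 1 := Int.ceil_lt_add_one _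
          have h2 : (3 : ℝ) ≤ 3 / r := by rw [le_div_iff₀ hr]; linarith
          rw [add_div, mul_div_assoc]; linarith
      _ = _ := by
          rw [Real.mul_rpow (by norm_num) hr.le, Real.rpow_sub_one hr.ne']; ring

end Pool.Agent.MP_83cc0d_an

end

-- part MP_83cc0d_an.Kernel
section

namespace Pool.Agent.MP_83cc0d_an

open MeasureTheory Complex Filter Topology Metric Module
open scoped ENNReal InnerProductSpace ComplexConjugate

variable {V : Type} [NormedAddCommGroup V] [InnerProductSpace ℝ V]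

noncomputable def wt (e : V) (M : ℕ) (a b : V) : ℝ := (⟪a, b⟫_ℝ * ⟪a, sb b e⟫_ℝ) ^ (2 * M)

noncomputable def Fk (e : V) (M : ℕ) (τ : ℝ) (a b : V) : ℂ :=
  cexp (I * τ * (ph a b : ℝ)) * (wt e M a b : ℝ)

lemma wt_nonneg (e : V) (M : ℕ) (a b : V) : 0 ≤ wt e M a b := by
  unfold wt; rw [pow_mul]; positivity

@[fun_prop]
lemma continuous_Fk {X : Type} [TopologicalSpace X] (e : V) (M : ℕ) (τ : ℝ) {f g : X → V}
    (hf : Continuous f) (hg : Continuous g) : Continuous fun x => Fk e M τ (f x) (g x) := by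
  unfold Fk wt ph sb; fun_prop

lemma norm_Fk (e : V) (M : ℕ) (τ : ℝ) (a b : V) : ‖Fk e M τ a b‖ = wt e M a b := by
  rw [Fk, norm_mul, show I * τ * (ph a b : ℝ) = ((τ * ph a b : ℝ) : ℂ) * I by push_cast; ring,
    norm_exp_ofReal_mul_I, one_mul, Complex.norm_real, Real.norm_of_nonneg (wt_nonneg _ _ _ _)]

lemma sb_le {b e : V} {R : ℝ} (hb : ‖b‖ ≤ R) (he : ‖e‖ ≤ 1) : ‖sb b e‖ ≤ R ^ 2 := by
  refine (norm_sb_le b e).trans ?_
  calc ‖b‖ ^ 2 * ‖e‖ ≤ R ^ 2 * 1 := by gcongr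
    _ = _ := mul_one _

lemma wt_le {e : V} (M : ℕ) (a : V) {b : V} {R : ℝ} (hb : ‖b‖ ≤ R) (he : ‖e‖ ≤ 1) :
    wt e M a b ≤ (R ^ 3 * ‖a‖ ^ 2) ^ (2 * M) := by
  have hR : 0 ≤ R := (norm_nonneg _).trans hb
  rw [wt, ← (even_two_mul M).pow_abs, abs_mul]
  have h1 : |⟪a, b⟫_ℝ| ≤ ‖a‖ * R := (abs_real_inner_le_norm a b).trans (by gcongr)
  have h2 : |⟪a, sb b e⟫_ℝ| ≤ ‖a‖ * R ^ 2 :=
    (abs_real_inner_le_norm a _).trans (by gcongr; exact sb_le hb he)
  apply pow_le_pow_left₀ (by positivity)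
  calc _ ≤ ‖a‖ * R * (‖a‖ * R ^ 2) := by gcongr
    _ = _ := by ring

noncomputable def Kin (e : V) (M : ℕ) (τ : ℝ) (a : V) (p : V × V) : ℂ :=
  Fk e M τ a p.1 * conj (Fk e M τ a p.2) * (Real.exp (-‖a‖ ^ 2) : ℝ)

variable [FiniteDimensional ℝ V] [MeasurableSpace V] [BorelSpace V]

lemma kernel_bound (M : ℕ) {R : ℝ} (hR : 1 ≤ R) : ∃ C : ℝ, 0 ≤ C ∧ ∀ e : V, ‖e‖ ≤ 1 →
    ∀ τ : ℝ, 0 ≤ τ → ∀ b b' : V, ‖b‖ ≤ R → ‖b'‖ ≤ R →
      ‖∫ a, Kin e M τ a (b, b')‖ ≤ C ∧
      ‖∫ a, Kin e M τ a (b, b')‖ * (τ * min ‖b - b'‖ ‖b + b'‖) ^ M ≤ C := by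
  obtain ⟨C, hC0, hC⟩ := wick (V := V) (Fin (2 * M) × Fin 4)
  set D : ℝ := ((finrank ℝ V : ℕ) : ℝ) with hD
  have hD0 : 0 ≤ D := Nat.cast_nonneg _
  refine ⟨C * ((16 * D ^ 4 * R ^ 6) ^ M * (D * R * (D * R ^ 2)) ^ (2 * M)), by positivity,
    fun e he τ hτ b b' hb hb' => ?_⟩
  obtain ⟨n, hn, h⟩ := hC _ (Sop_symm b b') τ hτ
  have h1 := h (fun i => ![b, sb b e, b', sb b' e] i.2)
  have e1 : ∀ a, Kin e M τ a (b, b') =
      (∏ i : Fin (2 * M) × Fin 4, ((⟪a, ![b, sb b e, b', sb b' e] i.2⟫_ℝ : ℝ) : ℂ)) *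
        cexp (I * τ * (⟪a, Sop b b' a⟫_ℝ : ℝ) - (‖a‖ ^ 2 : ℝ)) := by
    intro a
    rw [Fintype.prod_prod_type, Sop_apply, inner_sub_right, inner_sb_self, inner_sb_self]
    simp only [Fin.prod_univ_four, Finset.prod_const, Finset.card_univ, Fintype.card_fin,
      Matrix.cons_val_zero, Matrix.cons_val_one, Matrix.cons_val, Kin, Fk, wt, map_mul,
      conj_ofReal, ← exp_conj, conj_I]
    rw [show I * τ * ((ph a b - ph a b' : ℝ) : ℂ) - (‖a‖ ^ 2 : ℝ) =
      I * τ * (ph a b : ℝ) + -I * τ * (ph a b' : ℝ) + (-‖a‖ ^ 2 : ℝ) by push_cast; ring,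
      Complex.exp_add, Complex.exp_add]
    push_cast
    rw [mul_assoc (_ * _ : ℂ) (⟪a, b'⟫_ℝ : ℂ), mul_pow _ (_ * _)]
    ring
  simp_rw [← e1] at h1
  rw [Fintype.prod_prod_type] at h1
  simp only [Fin.prod_univ_four, Finset.prod_const, Finset.card_univ, Fintype.card_fin,
    Matrix.cons_val_zero, Matrix.cons_val_one, Matrix.cons_val] at h1
  have n1 := hn.nonneg b
  have n2 := hn.nonneg (sb b e)
  have n3 := hn.nonneg b'
  have n4 := hn.nonneg (sb b' e)
  have l1 : n b ≤ D * R := (hn.le _).trans (by gcongr)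
  have l2 : n (sb b e) ≤ D * R ^ 2 := (hn.le _).trans (by gcongr; exact sb_le hb he)
  have l3 : n b' ≤ D * R := (hn.le _).trans (by gcongr)
  have l4 : n (sb b' e) ≤ D * R ^ 2 := (hn.le _).trans (by gcongr; exact sb_le hb' he)
  have e2 : (n b * n (sb b e) * n b' * n (sb b' e)) ^ (2 * M) =
      ((n b * n (sb b e)) ^ 2) ^ M * (n b' * n (sb b' e)) ^ (2 * M) := by
    rw [← pow_mul, ← mul_pow]; congr 1; ring
  rw [e2] at h1
  have hm0 : 0 ≤ min ‖b - b'‖ ‖b + b'‖ := le_min (norm_nonneg _) (norm_nonneg _)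
  constructor
  · refine h1.trans ?_
    gcongr
    calc (n b * n (sb b e)) ^ 2 ≤ (D * R * (D * R ^ 2)) ^ 2 := by gcongr
      _ = 1 * D ^ 4 * R ^ 6 := by ring
      _ ≤ _ := by gcongr; norm_num
  · have g := geom hn hτ hD0 hR hb hb' he
    have g' : (n b * n (sb b e)) ^ 2 * (τ * min ‖b - b'‖ ‖b + b'‖) ≤ 16 * D ^ 4 * R ^ 6 :=
      g.trans (by gcongr; norm_num)
    calc _ ≤ C * (((n b * n (sb b e)) ^ 2) ^ M * (n b' * n (sb b' e)) ^ (2 * M)) *
          (τ * min ‖b - b'‖ ‖b + b'‖) ^ M := by gcongr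
      _ = C * (((n b * n (sb b e)) ^ 2 * (τ * min ‖b - b'‖ ‖b + b'‖)) ^ M *
          (n b' * n (sb b' e)) ^ (2 * M)) := by rw [mul_pow _ (τ * _)]; ring
      _ ≤ _ := by gcongr

lemma integrable_pow_gauss (m : ℕ) :
    Integrable fun a : V => (‖a‖ ^ 2) ^ m * Real.exp (-‖a‖ ^ 2) := by
  have h := (GaussianFourier.integrable_cexp_neg_mul_sq_norm_add (V := V) (b := 1 / 2)
    (by norm_num) 0 0).norm.const_mul (2 ^ m * m.factorial)
  refine h.mono' (Continuous.aestronglyMeasurable (by fun_prop)) (Eventually.of_forall fun a => ?_)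
  rw [Real.norm_of_nonneg (by positivity), zero_mul, add_zero,
    show -(1 / 2 : ℂ) * (‖a‖ : ℂ) ^ 2 = ((-(‖a‖ ^ 2 / 2) : ℝ) : ℂ) by push_cast; ring,
    norm_exp_ofReal]
  have h1 := Real.pow_div_factorial_le_exp (‖a‖ ^ 2 / 2) (by positivity) m
  rw [div_le_iff₀ (by positivity), div_pow, div_le_iff₀ (by positivity)] at h1
  calc _ ≤ Real.exp (‖a‖ ^ 2 / 2) * m.factorial * 2 ^ m * Real.exp (-‖a‖ ^ 2) := by gcongr
    _ = 2 ^ m * m.factorial * (Real.exp (‖a‖ ^ 2 / 2) * Real.exp (-‖a‖ ^ 2)) := by ring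
    _ = _ := by rw [← Real.exp_add]; congr 2; ring

noncomputable def gg (μ : Measure V) (e : V) (M : ℕ) (τ : ℝ) (a : V) : ℂ :=
  ∫ b, Fk e M τ a b ∂μ

omit [InnerProductSpace ℝ V] [FiniteDimensional ℝ V] [BorelSpace V] in
lemma ae_prod_bdd {μ : Measure V} [IsFiniteMeasure μ] {R : ℝ} (hR : ∀ᵐ x ∂μ, ‖x‖ ≤ R) :
    ∀ᵐ p ∂μ.prod μ, ‖p.1‖ ≤ R ∧ ‖p.2‖ ≤ R :=
  (Measure.quasiMeasurePreserving_fst.ae hR).and (Measure.quasiMeasurePreserving_snd.ae hR)

lemma L2_bound {μ : Measure V} [IsFiniteMeasure μ] {R σ C₀ : ℝ} (hR1 : 1 ≤ R)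
    (hR : ∀ᵐ x ∂μ, ‖x‖ ≤ R) (hC₀ : ∀ x r, 0 < r → μ.real (closedBall x r) ≤ C₀ * r ^ σ) (M : ℕ) :
    ∃ C : ℝ, 0 ≤ C ∧ ∀ e : V, ‖e‖ ≤ 1 → ∀ τ : ℝ, 0 < τ → ∀ ρ : ℝ, 0 < ρ →
      ∫⁻ a, ENNReal.ofReal (‖gg μ e M τ a‖ ^ 2 * Real.exp (-‖a‖ ^ 2)) ≤
        ENNReal.ofReal (C * (ρ ^ σ + ((τ * ρ) ^ M)⁻¹)) := by
  obtain ⟨C, hC0, hC⟩ := kernel_bound (V := V) M hR1
  set m := μ.real Set.univ with hm
  have hm0 : 0 ≤ m := measureReal_nonneg
  refine ⟨C * (2 * |C₀| + m) * m, by positivity, fun e he τ hτ ρ hρ => ?_⟩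
  have hint : Integrable (Function.uncurry (Kin e M τ)) (volume.prod (μ.prod μ)) := by
    have := Integrable.mul_prod (ν := μ.prod μ) ((integrable_pow_gauss (V := V) (4 * M)).const_mul
      ((R ^ 3) ^ (4 * M))) (integrable_const (1 : ℝ))
    refine this.mono' (Continuous.aestronglyMeasurable ?_) ?_
    · unfold Function.uncurry Kin; fun_prop
    · filter_upwards [Measure.quasiMeasurePreserving_snd.ae (ae_prod_bdd hR)] with z hz
      simp only [Function.uncurry, Kin, norm_mul, norm_conj, norm_Fk, Complex.norm_real, mul_one,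
        Real.norm_of_nonneg (Real.exp_pos _).le]
      have h1 := wt_le M z.1 hz.1 he
      have h2 := wt_le M z.1 hz.2 he
      have h3 := wt_nonneg e M z.1 z.2.2
      calc _ ≤ (R ^ 3 * ‖z.1‖ ^ 2) ^ (2 * M) * (R ^ 3 * ‖z.1‖ ^ 2) ^ (2 * M) *
            Real.exp (-‖z.1‖ ^ 2) := by gcongr
        _ = _ := by rw [← pow_add, show 2 * M + 2 * M = 4 * M by ring, mul_pow]; ring
  have e1 : ∀ a, ∫ p, Kin e M τ a p ∂μ.prod μ =
      ((‖gg μ e M τ a‖ ^ 2 * Real.exp (-‖a‖ ^ 2) : ℝ) : ℂ) := by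
    intro a
    unfold Kin
    rw [integral_mul_const, integral_prod_mul (fun b => Fk e M τ a b)
      (fun b => conj (Fk e M τ a b)), integral_conj, mul_conj']
    push_cast; rfl
  have swap := integral_integral_swap hint
  have i1 := hint.integral_prod_left
  have i2 := hint.integral_prod_right
  simp only [Function.uncurry, e1] at swap i1 i2
  have i3 : Integrable fun a => ‖gg μ e M τ a‖ ^ 2 * Real.exp (-‖a‖ ^ 2) := by
    simpa only [RCLike.re_to_complex, ofReal_re] using i1.re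
  rw [← ofReal_integral_eq_lintegral_ofReal i3 (Eventually.of_forall fun a => by positivity)]
  apply ENNReal.ofReal_le_ofReal
  rw [integral_complex_ofReal, integral_prod _ i2] at swap
  have hn := congrArg norm swap
  rw [Complex.norm_real] at hn
  refine (le_abs_self _).trans (hn.le.trans ?_)
  have hin : ∀ᵐ b ∂μ, ‖∫ b', ∫ a, Kin e M τ a (b, b') ∂volume ∂μ‖ ≤
      C * (2 * |C₀| + m) * (ρ ^ σ + ((τ * ρ) ^ M)⁻¹) := by
    filter_upwards [hR] with b hb
    have j1 : Integrable ((closedBall b ρ).indicator fun _ => C) μ :=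
      (integrable_const C).indicator measurableSet_closedBall
    have j2 : Integrable ((closedBall (-b) ρ).indicator fun _ => C) μ :=
      (integrable_const C).indicator measurableSet_closedBall
    refine (norm_integral_le_of_norm_le ((j1.add j2).add (integrable_const (C * ((τ * ρ) ^ M)⁻¹)))
      ?_).trans ?_
    · filter_upwards [hR] with b' hb'
      obtain ⟨k1, k2⟩ := hC e he τ hτ.le b b' hb hb'
      have p1 : 0 ≤ (closedBall b ρ).indicator (fun _ => C) b' :=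
        Set.indicator_nonneg (fun _ _ => hC0) _
      have p2 : 0 ≤ (closedBall (-b) ρ).indicator (fun _ => C) b' :=
        Set.indicator_nonneg (fun _ _ => hC0) _
      have p3 : 0 ≤ C * ((τ * ρ) ^ M)⁻¹ := by positivity
      simp only [Pi.add_apply]
      by_cases c1 : b' ∈ closedBall b ρ
      · rw [Set.indicator_of_mem c1]; linarith
      by_cases c2 : b' ∈ closedBall (-b) ρ
      · rw [Set.indicator_of_mem c2]; linarith
      rw [mem_closedBall, dist_eq_norm, not_le] at c1 c2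
      have hmin : ρ ≤ min ‖b - b'‖ ‖b + b'‖ := by
        apply le_min
        · rw [norm_sub_rev]; exact c1.le
        · rw [sub_neg_eq_add, add_comm] at c2; exact c2.le
      have : ‖∫ a, Kin e M τ a (b, b')‖ ≤ C * ((τ * ρ) ^ M)⁻¹ := by
        rw [← div_eq_mul_inv, le_div_iff₀ (by positivity)]
        exact le_trans (by gcongr) k2
      linarith
    · rw [integral_add' (j1.add j2) (integrable_const _), integral_add' j1 j2,
        integral_indicator_const _ measurableSet_closedBall,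
        integral_indicator_const _ measurableSet_closedBall, integral_const]
      simp only [smul_eq_mul]
      have q : C₀ * ρ ^ σ ≤ |C₀| * ρ ^ σ := by gcongr; exact le_abs_self _
      have q1 := (hC₀ b ρ hρ).trans q
      have q2 := (hC₀ (-b) ρ hρ).trans q
      have q3 : 0 ≤ ρ ^ σ := by positivity
      have q4 : 0 ≤ ((τ * ρ) ^ M)⁻¹ := by positivity
      have q5 : 0 ≤ |C₀| := abs_nonneg _
      rw [← hm]
      nlinarith [mul_le_mul_of_nonneg_right q1 hC0, mul_le_mul_of_nonneg_right q2 hC0,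
        mul_nonneg (mul_nonneg hC0 hm0) q3, mul_nonneg (mul_nonneg hC0 q5) q4]
  refine (norm_integral_le_of_norm_le_const hin).trans (le_of_eq ?_)
  rw [← hm]; ring

end Pool.Agent.MP_83cc0d_an

end

-- part MP_83cc0d_an.Smooth
section

namespace Pool.Agent.MP_83cc0d_an

open MeasureTheory Complex Filter Topology Metric Module
open scoped ENNReal InnerProductSpace ComplexConjugate

variable {V : Type} [NormedAddCommGroup V] [InnerProductSpace ℝ V]
  [FiniteDimensional ℝ V] [MeasurableSpace V] [BorelSpace V]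

lemma smear {μ : Measure V} [IsFiniteMeasure μ] {R η τ B : ℝ} (hR : ∀ᵐ x ∂μ, ‖x‖ ≤ R)
    (hη1 : η ≤ 1) (hτ : 1 ≤ τ) (hB : ∀ x, μ.real (closedBall x (η / τ)) ≤ B)
    {G : V → ℝ≥0∞} (hG : Measurable G) :
    ∫⁻ a, ∫⁻ u in closedBall (0 : V) η, G (a + τ⁻¹ • u) ∂volume ∂μ ≤
      ENNReal.ofReal (τ ^ finrank ℝ V) * ENNReal.ofReal B *
        ∫⁻ x in closedBall (0 : V) (R + 1), G x := by
  have hτ0 : 0 < τ := by linarith
  set H : V → V → ℝ≥0∞ := fun a x => {p : V × V | dist p.1 p.2 ≤ η / τ}.indicator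
    (fun p => (closedBall (0 : V) (R + 1)).indicator G p.2) (a, x) with hH
  have hset : MeasurableSet {p : V × V | dist p.1 p.2 ≤ η / τ} :=
    (isClosed_le continuous_dist continuous_const).measurableSet
  have hHm : Measurable (Function.uncurry H) :=
    ((hG.indicator measurableSet_closedBall).comp measurable_snd).indicator hset
  have h1 : ∀ᵐ a ∂μ, ∫⁻ u in closedBall (0 : V) η, G (a + τ⁻¹ • u) ≤
      ENNReal.ofReal (τ ^ finrank ℝ V) * ∫⁻ x, H a x := by
    filter_upwards [hR] with a ha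
    have hHa : Measurable (H a) := hHm.of_uncurry_left
    calc _ ≤ ∫⁻ u in closedBall (0 : V) η, H a (a + τ⁻¹ • u) := by
          apply setLIntegral_mono' measurableSet_closedBall
          intro u hu
          rw [mem_closedBall_zero_iff] at hu
          have hn : ‖τ⁻¹ • u‖ ≤ η / τ := by
            rw [norm_smul, norm_inv, Real.norm_of_nonneg hτ0.le, div_eq_inv_mul]; gcongr
          have hn' : η / τ ≤ 1 := by rw [div_le_one hτ0]; linarith
          rw [hH]; simp only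
          rw [Set.indicator_of_mem (by simpa using hn), Set.indicator_of_mem]
          rw [mem_closedBall_zero_iff]
          exact (norm_add_le _ _).trans (by linarith)
      _ ≤ ∫⁻ u, H a (a + τ⁻¹ • u) := setLIntegral_le_lintegral _ _
      _ = ∫⁻ h, H a (a + h) ∂(Measure.map (τ⁻¹ • ·) volume) :=
          (lintegral_map (hHa.comp (measurable_const_add a)) (measurable_const_smul _)).symm
      _ = _ := by
          rw [Measure.map_addHaar_smul _ (inv_ne_zero hτ0.ne'), lintegral_smul_measure,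
            lintegral_add_left_eq_self (H a) a, inv_pow, inv_inv, abs_of_pos (by positivity),
            smul_eq_mul]
  refine (lintegral_mono_ae h1).trans ?_
  rw [lintegral_const_mul' _ _ ENNReal.ofReal_ne_top, lintegral_lintegral_swap hHm.aemeasurable,
    mul_assoc, ← lintegral_indicator measurableSet_closedBall,
    ← lintegral_const_mul' (ENNReal.ofReal B) _ ENNReal.ofReal_ne_top]
  gcongr with x
  have : ∀ a, H a x = (closedBall x (η / τ)).indicator
      (fun _ => (closedBall (0 : V) (R + 1)).indicator G x) a := by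
    intro a
    rw [hH]; simp only [Set.indicator, Set.mem_ofPred_eq, mem_closedBall]
  simp_rw [this]
  rw [lintegral_indicator_const measurableSet_closedBall, mul_comm]
  gcongr
  rw [← ofReal_measureReal]
  exact ENNReal.ofReal_le_ofReal (hB x)

lemma gg_meas (μ : Measure V) [IsFiniteMeasure μ] (e : V) (M : ℕ) (τ : ℝ) :
    Measurable (gg μ e M τ) := by
  have : StronglyMeasurable (Function.uncurry (Fk e M τ)) :=
    Continuous.stronglyMeasurable (continuous_Fk e M τ continuous_fst continuous_snd)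
  exact this.integral_prod_right.measurable

/-- Bound for the smeared oscillatory integral. -/
lemma T_bound {μ : Measure V} [IsFiniteMeasure μ] {R σ C₀ η : ℝ} (hR1 : 1 ≤ R)
    (hR : ∀ᵐ x ∂μ, ‖x‖ ≤ R) (hC₀ : ∀ x r, 0 < r → μ.real (closedBall x r) ≤ C₀ * r ^ σ)
    (hC₀' : 0 ≤ C₀) (hη : 0 < η) (hη1 : η ≤ 1) (hσ : (finrank ℝ V : ℝ) + 1 < 2 * σ) :
    ∃ (M : ℕ) (q C : ℝ), 1 / 2 < q ∧ ∀ e : V, ‖e‖ ≤ 1 → ∀ τ : ℝ, 1 ≤ τ →
      ‖∫ a, ∫ u in closedBall (0 : V) η, gg μ e M τ (a + τ⁻¹ • u) ∂volume ∂μ‖ ≤ C * τ ^ (-q) := by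
  set D : ℝ := ((finrank ℝ V : ℕ) : ℝ) with hD
  have hD0 : 0 ≤ D := Nat.cast_nonneg _
  have hσ0 : 0 < σ := by linarith
  set ε : ℝ := (2 * σ - D - 1) / (2 * σ) with hε
  have hε0 : 0 < ε := by rw [hε]; apply div_pos <;> linarith
  have hεσ : ε * σ = (2 * σ - D - 1) / 2 := by rw [hε]; field_simp
  obtain ⟨M, hM⟩ := exists_nat_ge (σ / ε)
  rw [div_le_iff₀ hε0] at hM
  obtain ⟨C, hC0, hC⟩ := L2_bound hR1 hR hC₀ M
  set q : ℝ := (2 * σ - ε * σ - D) / 2 with hq
  set m : ℝ := μ.real Set.univ * (volume : Measure V).real (closedBall 0 η) with hm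
  refine ⟨M, q, C₀ * η ^ σ * (Real.exp ((R + 1) ^ 2) * (C * 2)) + m, by rw [hq]; linarith,
    fun e he τ hτ => ?_⟩
  have hτ0 : 0 < τ := by linarith
  set G : V → ℝ≥0∞ := fun x => ENNReal.ofReal (‖gg μ e M τ x‖ ^ 2) with hG
  have hGm : Measurable G := ((gg_meas μ e M τ).norm.pow_const 2).ennreal_ofReal
  have s1 := smear hR hη1 hτ (fun x => hC₀ x _ (by positivity)) hGm
  have s2 : ∫⁻ x in closedBall (0 : V) (R + 1), G x ≤
      ENNReal.ofReal (Real.exp ((R + 1) ^ 2) * (C * 2 * τ ^ ((ε - 1) * σ))) := by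
    have h1 := hC e he τ hτ0 (τ ^ (ε - 1)) (by positivity)
    have h2 : (τ ^ (ε - 1)) ^ σ + ((τ * τ ^ (ε - 1)) ^ M)⁻¹ ≤ 2 * τ ^ ((ε - 1) * σ) := by
      rw [← Real.rpow_mul hτ0.le, Real.rpow_sub_one hτ0.ne', mul_div_cancel₀ _ hτ0.ne',
        ← Real.rpow_natCast, ← Real.rpow_mul hτ0.le, ← Real.rpow_neg hτ0.le]
      have : τ ^ (-(ε * M)) ≤ τ ^ ((ε - 1) * σ) :=
        Real.rpow_le_rpow_of_exponent_le hτ (by nlinarith)
      linarith
    calc _ ≤ ∫⁻ x in closedBall (0 : V) (R + 1), ENNReal.ofReal (Real.exp ((R + 1) ^ 2)) *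
          ENNReal.ofReal (‖gg μ e M τ x‖ ^ 2 * Real.exp (-‖x‖ ^ 2)) := by
          apply setLIntegral_mono' measurableSet_closedBall
          intro x hx
          rw [mem_closedBall_zero_iff] at hx
          rw [← ENNReal.ofReal_mul (Real.exp_pos _).le]
          apply ENNReal.ofReal_le_ofReal
          rw [mul_left_comm, ← Real.exp_add]
          apply le_mul_of_one_le_right (by positivity)
          have : ‖x‖ ^ 2 ≤ (R + 1) ^ 2 := by gcongr
          exact Real.one_le_exp (by linarith)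
      _ ≤ ENNReal.ofReal (Real.exp ((R + 1) ^ 2)) *
          ENNReal.ofReal (C * ((τ ^ (ε - 1)) ^ σ + ((τ * τ ^ (ε - 1)) ^ M)⁻¹)) := by
          rw [lintegral_const_mul' _ _ ENNReal.ofReal_ne_top]
          gcongr
          exact (setLIntegral_le_lintegral _ _).trans h1
      _ ≤ _ := by
          rw [← ENNReal.ofReal_mul (Real.exp_pos _).le]
          apply ENNReal.ofReal_le_ofReal
          rw [mul_assoc C]; gcongr
  have s3 : ∀ x, ‖gg μ e M τ x‖ₑ ≤ ENNReal.ofReal (τ ^ q) * G x + ENNReal.ofReal (τ ^ (-q)) := by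
    intro x
    have hp : 0 < τ ^ q := by positivity
    rw [← ofReal_norm, hG, ← ENNReal.ofReal_mul hp.le,
      ← ENNReal.ofReal_add (by positivity) (by positivity), Real.rpow_neg hτ0.le]
    apply ENNReal.ofReal_le_ofReal
    have h1 : τ ^ q * (τ ^ q)⁻¹ = 1 := mul_inv_cancel₀ hp.ne'
    have h2 := norm_nonneg (gg μ e M τ x)
    apply le_of_mul_le_mul_left _ hp
    nlinarith [sq_nonneg (τ ^ q * ‖gg μ e M τ x‖ - 1)]
  have s4 : ‖∫ a, ∫ u in closedBall (0 : V) η, gg μ e M τ (a + τ⁻¹ • u) ∂volume ∂μ‖ₑ ≤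
      ENNReal.ofReal (τ ^ q) *
        (∫⁻ a, ∫⁻ u in closedBall (0 : V) η, G (a + τ⁻¹ • u) ∂volume ∂μ) +
        ENNReal.ofReal (τ ^ (-q)) * volume (closedBall (0 : V) η) * μ Set.univ := by
    refine (enorm_integral_le_lintegral_enorm _).trans ?_
    rw [← lintegral_const_mul' _ _ ENNReal.ofReal_ne_top, ← lintegral_const,
      ← lintegral_add_right _ measurable_const]
    apply lintegral_mono
    intro a
    refine (enorm_integral_le_lintegral_enorm _).trans ?_
    simp only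
    rw [← lintegral_const_mul' _ _ ENNReal.ofReal_ne_top, ← setLIntegral_const,
      ← lintegral_add_right _ measurable_const]
    exact lintegral_mono fun u => s3 _
  have s5 := s4.trans (add_le_add_left (mul_le_mul_right (s1.trans (mul_le_mul_right s2 _)) _) _)
  rw [← ofReal_norm, ← ofReal_measureReal (μ := μ),
    ← ofReal_measureReal (μ := volume) (measure_closedBall_lt_top.ne),
    ← ENNReal.ofReal_mul (by positivity), ← ENNReal.ofReal_mul (by positivity),
    ← ENNReal.ofReal_mul (by positivity), ← ENNReal.ofReal_mul (by positivity),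
    ← ENNReal.ofReal_mul (by positivity), ← ENNReal.ofReal_add (by positivity) (by positivity),
    ENNReal.ofReal_le_ofReal_iff (by positivity)] at s5
  refine s5.trans (le_of_eq ?_)
  have e1 : τ ^ q * τ ^ finrank ℝ V * (τ ^ σ)⁻¹ * τ ^ ((ε - 1) * σ) = τ ^ (-q) := by
    rw [← Real.rpow_natCast, ← Real.rpow_neg hτ0.le, ← Real.rpow_add hτ0, ← Real.rpow_add hτ0,
      ← Real.rpow_add hτ0]
    congr 1
    rw [hq, ← hD]; ring
  rw [Real.div_rpow hη.le hτ0.le, hm, ← e1]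
  nth_rewrite 1 [e1]
  rw [div_eq_mul_inv]
  linear_combination (-(μ.real Set.univ * (volume : Measure V).real (closedBall 0 η))) * e1

end Pool.Agent.MP_83cc0d_an

end

-- part MP_83cc0d_an.AC1
section

namespace Pool.Agent.MP_83cc0d_an

open MeasureTheory Complex Filter Topology Metric
open scoped ENNReal ComplexConjugate

lemma pair_bound (ν : Measure ℝ) [IsFiniteMeasure ν]
    (h : Integrable fun τ : ℝ => ‖charFun ν τ‖ ^ 2) {ε : ℝ} (hε : 0 < ε) :
    (ν.prod ν).real {p | |p.1 - p.2| ≤ ε} ≤ 2 * ε * ∫ τ : ℝ, ‖charFun ν τ‖ ^ 2 := by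
  have hb : 0 < ((ε : ℂ) ^ 2).re := by rw [← ofReal_pow, ofReal_re]; positivity
  set F : ℝ × ℝ → ℝ → ℂ := fun p τ => cexp (I * (p.1 - p.2 : ℝ) * τ) * cexp (-(ε : ℂ) ^ 2 * τ ^ 2)
    with hF
  have hn : ∀ τ : ℝ, ‖cexp (-(ε : ℂ) ^ 2 * τ ^ 2)‖ = Real.exp (-ε ^ 2 * τ ^ 2) := by
    intro τ
    rw [show -(ε : ℂ) ^ 2 * τ ^ 2 = ((-ε ^ 2 * τ ^ 2 : ℝ) : ℂ) by push_cast; ring, norm_exp_ofReal]
  have hFn : ∀ p τ, ‖F p τ‖ = Real.exp (-ε ^ 2 * τ ^ 2) := by
    intro p τ
    rw [hF]; simp only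
    rw [norm_mul, hn, show I * (p.1 - p.2 : ℝ) * τ = (((p.1 - p.2) * τ : ℝ) : ℂ) * I by
      push_cast; ring, norm_exp_ofReal_mul_I, one_mul]
  have hint : Integrable (Function.uncurry F) ((ν.prod ν).prod volume) := by
    have := Integrable.mul_prod (μ := ν.prod ν) (integrable_const (1 : ℝ))
      (integrable_exp_neg_mul_sq (b := ε ^ 2) (by positivity))
    refine this.mono' (Continuous.aestronglyMeasurable (by rw [hF]; fun_prop))
      (Eventually.of_forall fun z => ?_)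
    simp only [Function.uncurry, hFn, one_mul, le_refl]
  have swap := integral_integral_swap hint
  have l1 : ∀ p : ℝ × ℝ, ∫ τ, F p τ =
      ((√Real.pi / ε * Real.exp (-(p.1 - p.2) ^ 2 / (4 * ε ^ 2)) : ℝ) : ℂ) := by
    intro p
    rw [hF]; simp only
    rw [fourierIntegral_gaussian hb]
    have : ((Real.pi : ℂ) / (ε : ℂ) ^ 2) ^ (1 / 2 : ℂ) = ((√Real.pi / ε : ℝ) : ℂ) := by
      rw [show ((1 : ℂ) / 2) = ((1 / 2 : ℝ) : ℂ) by push_cast; rfl,
        show ((Real.pi : ℂ) / (ε : ℂ) ^ 2) = ((Real.pi / ε ^ 2 : ℝ) : ℂ) by push_cast; rfl,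
        ← ofReal_cpow (by positivity), ← Real.sqrt_eq_rpow, Real.sqrt_div Real.pi_pos.le,
        Real.sqrt_sq hε.le]
    rw [this]; push_cast; rfl
  have l2 : ∀ τ : ℝ, ∫ p, F p τ ∂ν.prod ν =
      ((‖charFun ν τ‖ ^ 2 * Real.exp (-ε ^ 2 * τ ^ 2) : ℝ) : ℂ) := by
    intro τ
    have e : ∀ p : ℝ × ℝ, F p τ = (cexp (τ * p.1 * I) * cexp ((-τ : ℝ) * p.2 * I)) *
        cexp (-(ε : ℂ) ^ 2 * τ ^ 2) := by
      intro p
      rw [hF]; simp only
      rw [← Complex.exp_add (τ * p.1 * I)]; congr 2; push_cast; ring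
    simp_rw [e]
    rw [integral_mul_const, integral_prod_mul (fun x : ℝ => cexp (τ * x * I))
      (fun y : ℝ => cexp ((-τ : ℝ) * y * I)), ← charFun_apply_real, ← charFun_apply_real,
      charFun_neg, mul_conj']
    push_cast; rfl
  simp_rw [l1, l2] at swap
  rw [integral_complex_ofReal, integral_complex_ofReal, ofReal_inj] at swap
  have u1 : ∫ τ : ℝ, ‖charFun ν τ‖ ^ 2 * Real.exp (-ε ^ 2 * τ ^ 2) ≤ ∫ τ : ℝ, ‖charFun ν τ‖ ^ 2 := by
    apply integral_mono_of_nonneg (Eventually.of_forall fun τ => by positivity) h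
    refine Eventually.of_forall fun τ => ?_
    have : Real.exp (-ε ^ 2 * τ ^ 2) ≤ 1 := Real.exp_le_one_iff.2 (by nlinarith [sq_nonneg (ε * τ)])
    exact mul_le_of_le_one_right (by positivity) this
  have hm : MeasurableSet {p : ℝ × ℝ | |p.1 - p.2| ≤ ε} :=
    (isClosed_le (by fun_prop) continuous_const).measurableSet
  have u2 : (ν.prod ν).real {p | |p.1 - p.2| ≤ ε} * (1 / (2 * ε)) ≤
      ∫ p : ℝ × ℝ, √Real.pi / ε * Real.exp (-(p.1 - p.2) ^ 2 / (4 * ε ^ 2)) ∂ν.prod ν := by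
    rw [← smul_eq_mul, ← integral_indicator_const _ hm]
    apply integral_mono ((integrable_const _).indicator hm)
    · refine (integrable_const (√Real.pi / ε)).mono'
        (Continuous.aestronglyMeasurable (by fun_prop)) (Eventually.of_forall fun p => ?_)
      rw [Real.norm_of_nonneg (by positivity)]
      apply mul_le_of_le_one_right (by positivity)
      rw [Real.exp_le_one_iff, neg_div, neg_nonpos]; positivity
    · intro p
      by_cases hp : p ∈ {p : ℝ × ℝ | |p.1 - p.2| ≤ ε}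
      · rw [Set.indicator_of_mem hp]
        have h1 : (p.1 - p.2) ^ 2 ≤ ε ^ 2 := sq_le_sq' (abs_le.1 hp).1 (abs_le.1 hp).2
        have h2 : (1 : ℝ) ≤ √Real.pi := Real.one_le_sqrt.2 (by linarith [Real.pi_gt_three])
        have h3 : -(1 / 4 : ℝ) ≤ -(p.1 - p.2) ^ 2 / (4 * ε ^ 2) := by
          rw [neg_div, neg_le_neg_iff, div_le_iff₀ (by positivity)]; linarith
        have h4 := Real.add_one_le_exp (-(p.1 - p.2) ^ 2 / (4 * ε ^ 2))
        calc 1 / (2 * ε) = 1 / ε * (1 / 2) := by field_simp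
          _ ≤ _ := mul_le_mul (by gcongr) (by linarith) (by norm_num) (by positivity)
      · rw [Set.indicator_of_notMem hp]; positivity
  rw [swap, mul_one_div, div_le_iff₀ (by positivity)] at u2
  nlinarith

lemma ac_of_integrable (ν : Measure ℝ) [IsFiniteMeasure ν]
    (h : Integrable fun τ : ℝ => ‖charFun ν τ‖ ^ 2) : ν ≪ volume := by
  set L := ∫ τ : ℝ, ‖charFun ν τ‖ ^ 2 with hL
  have hm : ∀ ε, MeasurableSet {p : ℝ × ℝ | |p.1 - p.2| ≤ ε} := fun ε =>
    (isClosed_le (by fun_prop) continuous_const).measurableSet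
  have hset : ∀ x ε : ℝ, Prod.mk x ⁻¹' {p : ℝ × ℝ | |p.1 - p.2| ≤ ε} = closedBall x ε := by
    intro x ε; ext y; simp [Real.dist_eq, abs_sub_comm]
  have hmeas : ∀ ε : ℝ, Measurable fun x => ν (closedBall x ε) := by
    intro ε
    simpa only [hset] using measurable_measure_prodMk_left (ν := ν) (hm ε)
  set f : ℝ → ℝ → ℝ≥0∞ := fun ε x => ν (closedBall x ε) / volume (closedBall x ε) with hf
  have hfe : ∀ ε x, f ε x = ν (closedBall x ε) * (ENNReal.ofReal (2 * ε))⁻¹ := by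
    intro ε x; rw [hf]; simp only [Real.volume_closedBall]; rfl
  have hfm : ∀ ε, Measurable (f ε) := fun ε => by
    rw [funext (hfe ε)]; exact (hmeas ε).mul_const _
  have hb : ∀ ε, 0 < ε → ∫⁻ x, f ε x ∂ν ≤ ENNReal.ofReal L := by
    intro ε hε
    simp_rw [hfe]
    rw [lintegral_mul_const _ (hmeas ε)]
    have := Measure.prod_apply (μ := ν) (ν := ν) (hm ε)
    simp only [hset] at this
    rw [← this, ← div_eq_mul_inv, ENNReal.div_le_iff (by simpa using hε) ENNReal.ofReal_ne_top,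
      ← ENNReal.ofReal_mul' (by positivity), ← ofReal_measureReal]
    apply ENNReal.ofReal_le_ofReal
    rw [mul_comm]; exact pair_bound ν h hε
  have fatou : ∫⁻ x, liminf (fun ε => f ε x) (𝓝[>] 0) ∂ν < ∞ := by
    refine (lintegral_liminf_le hfm).trans_lt (lt_of_le_of_lt ?_ (ENNReal.ofReal_lt_top (r := L)))
    apply liminf_le_of_frequently_le'
    have : ∀ᶠ ε in 𝓝[>] (0 : ℝ), ∫⁻ x, f ε x ∂ν ≤ ENNReal.ofReal L := by
      filter_upwards [self_mem_nhdsWithin] with ε hε using hb ε hε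
    exact this.frequently
  refine Measure.AbsolutelyContinuous.mk fun A hA h0 => ?_
  have h1 : ∀ᵐ x ∂ν.restrict A, (volume : Measure ℝ).rnDeriv ν x = 0 := by
    have := Measure.setLIntegral_rnDeriv_le (μ := (volume : Measure ℝ)) (ν := ν) A
    rw [h0, nonpos_iff_eq_zero, lintegral_eq_zero_iff (Measure.measurable_rnDeriv _ _)] at this
    exact this
  have h2 : ∀ᵐ x ∂ν.restrict A, liminf (fun ε => f ε x) (𝓝[>] 0) = ∞ := by
    filter_upwards [h1, ae_restrict_of_ae (Besicovitch.ae_tendsto_rnDeriv volume ν)] with x e1 e2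
    apply Tendsto.liminf_eq
    have := (continuous_inv.tendsto _).comp e2
    rw [e1, ENNReal.inv_zero] at this
    refine this.congr' ?_
    filter_upwards [self_mem_nhdsWithin] with ε hε
    rw [Function.comp, ENNReal.inv_div (Or.inl (measure_ne_top _ _))
      (Or.inr (measure_closedBall_pos _ _ hε).ne')]
  have h3 := (setLIntegral_le_lintegral A _).trans_lt fatou
  rw [lintegral_congr_ae h2, setLIntegral_const] at h3
  by_contra hc
  rw [ENNReal.top_mul hc] at h3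
  exact lt_irrefl _ h3

lemma ac_of_decay (ν : Measure ℝ) [IsFiniteMeasure ν] {C q : ℝ} (hq : 1 < q)
    (h : ∀ τ : ℝ, 1 ≤ τ → ‖charFun ν τ‖ ^ 2 ≤ C * τ ^ (-q)) : ν ≪ volume := by
  apply ac_of_integrable
  have hC : 0 ≤ C := by
    have := h 1 le_rfl
    rw [Real.one_rpow, mul_one] at this
    exact (sq_nonneg _).trans this
  have hi := (integrable_one_add_norm (E := ℝ) (μ := volume) (r := q) (by simpa using hq)).const_mul
    ((C + ν.real Set.univ ^ 2) * 2 ^ q)
  refine hi.mono' (Continuous.aestronglyMeasurable (by fun_prop)) (Eventually.of_forall fun τ => ?_)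
  rw [Real.norm_of_nonneg (sq_nonneg _)]
  have e : ‖charFun ν τ‖ = ‖charFun ν |τ|‖ := by
    rcases abs_choice τ with h1 | h1 <;> simp [h1]
  have key : ∀ t : ℝ, 0 < t → 1 + |τ| ≤ 2 * t → t ^ (-q) ≤ 2 ^ q * (1 + ‖τ‖) ^ (-q) := by
    intro t ht h1
    have h2 : (2 * t) ^ (-q) ≤ (1 + ‖τ‖) ^ (-q) :=
      Real.rpow_le_rpow_of_nonpos (by positivity) h1 (by linarith)
    rw [Real.mul_rpow (by norm_num) ht.le, Real.rpow_neg (by norm_num : (0 : ℝ) ≤ 2),
      inv_mul_le_iff₀ (by positivity)] at h2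
    exact h2
  have hp : 0 ≤ 2 ^ q * (1 + ‖τ‖) ^ (-q) := by positivity
  rcases le_total 1 |τ| with h1 | h1
  · have h2 := key |τ| (by linarith) (by linarith)
    rw [e, mul_assoc]
    refine (h _ h1).trans ?_
    exact mul_le_mul (by nlinarith [sq_nonneg (ν.real Set.univ)]) h2 (by positivity) (by positivity)
  · have h2 := key 1 one_pos (by linarith)
    rw [Real.one_rpow] at h2
    have h3 : ‖charFun ν τ‖ ^ 2 ≤ ν.real Set.univ ^ 2 := by
      gcongr; exact norm_charFun_le τ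
    rw [mul_assoc]
    nlinarith [sq_nonneg (ν.real Set.univ)]

end Pool.Agent.MP_83cc0d_an

end

-- part MP_83cc0d_an.Core
section

namespace Pool.Agent.MP_83cc0d_an

open MeasureTheory Complex Filter Topology Metric Module
open scoped ENNReal InnerProductSpace ComplexConjugate

lemma int_of_compact {X E : Type} [TopologicalSpace X] [MeasurableSpace X] [OpensMeasurableSpace X]
    [SecondCountableTopology X] [NormedAddCommGroup E] {m : Measure X} [IsFiniteMeasure m]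
    {K : Set X} (hK : IsCompact K) (hm : ∀ᵐ x ∂m, x ∈ K) {f : X → E} (hf : Continuous f) :
    Integrable f m := by
  obtain ⟨C, hC⟩ := hK.exists_bound_of_continuousOn hf.continuousOn
  exact (integrable_const C).mono' hf.aestronglyMeasurable (hm.mono hC)

variable {V : Type} [NormedAddCommGroup V] [InnerProductSpace ℝ V]

lemma contDiff_Phi (e : V) (M : ℕ) : ContDiff ℝ 1 fun z : ℝ × V × V × V =>
    cexp (I * (z.1 * ph z.2.2.2 z.2.2.1 : ℝ)) * (wt e M (z.2.1 + z.1 • z.2.2.2) z.2.2.1 : ℝ) := by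
  have h1 : ContDiff ℝ 1 fun z : ℝ × V × V × V => z.1 * ph z.2.2.2 z.2.2.1 := by
    unfold ph
    simp only [← real_inner_self_eq_norm_sq]
    refine contDiff_fst.mul (((ContDiff.inner ℝ ?_ ?_).mul (ContDiff.inner ℝ ?_ ?_)).sub
      ((ContDiff.inner ℝ ?_ ?_).pow 2)) <;> fun_prop
  have h2 : ContDiff ℝ 1 fun z : ℝ × V × V × V => wt e M (z.2.1 + z.1 • z.2.2.2) z.2.2.1 := by
    unfold wt sb
    simp only [← real_inner_self_eq_norm_sq]
    refine ((ContDiff.inner ℝ ?_ ?_).mul (ContDiff.inner ℝ ?_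
      (((ContDiff.inner ℝ ?_ ?_).smul ?_).sub ((ContDiff.inner ℝ ?_ ?_).smul ?_)))).pow _ <;>
      fun_prop
  exact (contDiff_const.mul (ofRealCLM.contDiff.comp h1)).cexp.mul (ofRealCLM.contDiff.comp h2)

variable [FiniteDimensional ℝ V]

lemma shift_error (e : V) (M : ℕ) (R : ℝ) : ∃ L : ℝ, ∀ τ : ℝ, 1 ≤ τ → ∀ a b u : V,
    ‖a‖ ≤ R → ‖b‖ ≤ R → ‖u‖ ≤ R →
    ‖Fk e M τ a b * cexp ((2 * ⟪u, sb b a⟫_ℝ : ℝ) * I) - Fk e M τ (a + τ⁻¹ • u) b‖ ≤ L * τ⁻¹ := by
  obtain ⟨L, hL⟩ := (contDiff_Phi e M).contDiffOn.exists_lipschitzOnWith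
    (s := Set.Icc 0 1 ×ˢ closedBall 0 R ×ˢ closedBall 0 R ×ˢ closedBall 0 R) one_ne_zero
    ((convex_Icc _ _).prod ((convex_closedBall _ _).prod
      ((convex_closedBall _ _).prod (convex_closedBall _ _))))
    (isCompact_Icc.prod ((isCompact_closedBall _ _).prod
      ((isCompact_closedBall _ _).prod (isCompact_closedBall _ _))))
  refine ⟨L, fun τ hτ a b u ha hb hu => ?_⟩
  have hτ0 : 0 < τ := by linarith
  have h := hL.dist_le_mul (0, a, b, u) (by simp [ha, hb, hu]) (τ⁻¹, a, b, u)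
    (by simp [ha, hb, hu, hτ0.le, inv_le_one_of_one_le₀ hτ])
  rw [Prod.dist_eq, dist_self, dist_zero_left, Real.norm_of_nonneg (by positivity),
    max_eq_left (by positivity), dist_eq_norm] at h
  refine le_trans (le_of_eq ?_) h
  have e1 : cexp (I * τ * (ph (a + τ⁻¹ • u) b : ℝ)) = cexp (I * τ * (ph a b : ℝ)) *
      cexp ((2 * ⟪u, sb b a⟫_ℝ : ℝ) * I) * cexp (I * (τ⁻¹ * ph u b : ℝ)) := by
    rw [← Complex.exp_add, ← Complex.exp_add, ph_add, ph_smul, real_inner_smul_left]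
    congr 1
    have : (τ : ℂ) ≠ 0 := ofReal_ne_zero.2 hτ0.ne'
    push_cast; field_simp
  simp only [Fk, e1, zero_mul, zero_smul, add_zero, ofReal_zero, mul_zero, Complex.exp_zero,
    one_mul]
  rw [show ∀ A B w E w' : ℂ, A * w * B - A * B * E * w' = A * B * (w - E * w') by intros; ring,
    norm_mul, norm_mul, norm_exp_ofReal_mul_I,
    show I * τ * (ph a b : ℝ) = ((τ * ph a b : ℝ) : ℂ) * I by push_cast; ring,
    norm_exp_ofReal_mul_I, one_mul, one_mul]

variable [MeasurableSpace V] [BorelSpace V]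

noncomputable def cc (η : ℝ) (v : V) : ℝ := ∫ u in closedBall (0 : V) η, Real.cos (2 * ⟪u, v⟫_ℝ)

lemma cc_eq (η : ℝ) (v : V) :
    ∫ u in closedBall (0 : V) η, cexp ((2 * ⟪u, v⟫_ℝ : ℝ) * I) = (cc η v : ℝ) := by
  have hs : ∫ u in closedBall (0 : V) η, Real.sin (2 * ⟪u, v⟫_ℝ) = 0 := by
    rw [← integral_indicator measurableSet_closedBall]
    have h := integral_neg_eq_self
      ((closedBall (0 : V) η).indicator fun u => Real.sin (2 * ⟪u, v⟫_ℝ)) volume
    have e : ∀ u : V, (closedBall (0 : V) η).indicator (fun u => Real.sin (2 * ⟪u, v⟫_ℝ)) (-u) =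
        -(closedBall (0 : V) η).indicator (fun u => Real.sin (2 * ⟪u, v⟫_ℝ)) u := by
      intro u
      simp only [Set.indicator, mem_closedBall_zero_iff, norm_neg]
      split_ifs <;> simp
    simp_rw [e] at h
    rw [integral_neg] at h
    linarith
  have i1 : IntegrableOn (fun u : V => ((Real.cos (2 * ⟪u, v⟫_ℝ) : ℝ) : ℂ)) (closedBall 0 η) :=
    Continuous.continuousOn (by fun_prop) |>.integrableOn_compact (isCompact_closedBall _ _)
  have i2 : IntegrableOn (fun u : V => ((Real.sin (2 * ⟪u, v⟫_ℝ) : ℝ) : ℂ) * I) (closedBall 0 η) :=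
    Continuous.continuousOn (by fun_prop) |>.integrableOn_compact (isCompact_closedBall _ _)
  simp_rw [exp_ofReal_mul_I]
  rw [integral_add i1 i2, integral_mul_const, integral_complex_ofReal, integral_complex_ofReal, hs]
  simp [cc]

lemma cc_pos {η : ℝ} (hη : 0 < η) {v : V} (hv : 2 * η * ‖v‖ ≤ 1) : 0 < cc η v := by
  have h := setIntegral_ge_of_const_le_real (μ := volume) (c := 1 / 2)
    (f := fun u : V => Real.cos (2 * ⟪u, v⟫_ℝ)) (s := closedBall (0 : V) η)
    measurableSet_closedBall measure_closedBall_lt_top.ne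
    (fun u hu => by
      rw [mem_closedBall_zero_iff] at hu
      have h1 : |2 * ⟪u, v⟫_ℝ| ≤ 1 := by
        rw [abs_mul, abs_two]
        have := abs_real_inner_le_norm u v
        nlinarith [norm_nonneg v]
      have h2 := Real.one_sub_sq_div_two_le_cos (x := 2 * ⟪u, v⟫_ℝ)
      have h3 : (2 * ⟪u, v⟫_ℝ) ^ 2 ≤ 1 := by rwa [sq_le_one_iff_abs_le_one]
      linarith)
    (Continuous.continuousOn (by fun_prop) |>.integrableOn_compact (isCompact_closedBall _ _))
  refine lt_of_lt_of_le ?_ h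
  have : 0 < (volume : Measure V).real (closedBall 0 η) :=
    ENNReal.toReal_pos (measure_closedBall_pos _ _ hη).ne' measure_closedBall_lt_top.ne
  positivity

lemma cc_cont (η : ℝ) : Continuous (cc η : V → ℝ) :=
  continuous_parametric_integral_of_continuous (by fun_prop) (isCompact_closedBall _ _)

theorem weighted_null {μ : Measure V} {σ : ℝ} (h : Frost μ σ)
    (hσ : (finrank ℝ V : ℝ) + 1 < 2 * σ) {e : V} (he : ‖e‖ ≤ 1) {A : Set ℝ}
    (hA : MeasurableSet A) (h0 : volume A = 0) :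
    ∀ᵐ p ∂μ.prod μ, ph p.1 p.2 ∈ A → ⟪p.1, p.2⟫_ℝ * ⟪p.1, sb p.2 e⟫_ℝ = 0 := by
  have := h.fin
  have hD0 : (0 : ℝ) ≤ finrank ℝ V := Nat.cast_nonneg _
  obtain ⟨R₀, hR₀⟩ := h.bdd
  obtain ⟨C₀, hC₀', hC₀⟩ := h.ball' (by linarith)
  set R := max R₀ 1 with hRdef
  have hR1 : 1 ≤ R := le_max_right _ _
  have hR : ∀ᵐ x ∂μ, ‖x‖ ≤ R := hR₀.mono fun x hx => hx.trans (le_max_left _ _)
  set η : ℝ := 1 / (2 * R ^ 3) with hη
  have hη0 : 0 < η := by positivity
  have hη1 : η ≤ 1 := by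
    rw [hη, div_le_one (by positivity)]
    have := one_le_pow₀ (n := 3) hR1
    linarith
  obtain ⟨M, q, C, hq, hT⟩ := T_bound hR1 hR hC₀ hC₀'.le hη0 hη1 hσ
  obtain ⟨L, hL⟩ := shift_error e M R
  set W : V × V → ℝ := fun p => wt e M p.1 p.2 * cc η (sb p.2 p.1) with hW
  have hWc : Continuous W := by
    have := cc_cont (V := V) η
    rw [hW]; unfold wt sb; fun_prop
  have hcc : ∀ᵐ p ∂μ.prod μ, 0 < cc η (sb p.2 p.1) := by
    filter_upwards [ae_prod_bdd hR] with p hp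
    apply cc_pos hη0
    have h1 : ‖sb p.2 p.1‖ ≤ R ^ 2 * R := (norm_sb_le _ _).trans (by gcongr; exacts [hp.2, hp.1])
    calc 2 * η * ‖sb p.2 p.1‖ ≤ 2 * η * (R ^ 2 * R) := by gcongr
      _ = 1 := by rw [hη]; field_simp
  have hKp : ∀ᵐ p ∂μ.prod μ, p ∈ closedBall (0 : V) R ×ˢ closedBall (0 : V) R := by
    filter_upwards [ae_prod_bdd hR] with p hp
    simpa using hp
  have hcp := (isCompact_closedBall (0 : V) R).prod (isCompact_closedBall (0 : V) R)
  have hWi : Integrable W (μ.prod μ) := int_of_compact hcp hKp hWc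
  have hφc : Continuous fun p : V × V => ph p.1 p.2 := by unfold ph; fun_prop
  have := isFiniteMeasure_withDensity_ofReal hWi.2
  set ν := ((μ.prod μ).withDensity fun p => ENNReal.ofReal (W p)).map fun p => ph p.1 p.2 with hν
  set β := (volume : Measure V).restrict (closedBall 0 η) with hβ
  have : IsFiniteMeasure β := isFiniteMeasure_restrict.2 measure_closedBall_lt_top.ne
  have hβa : ∀ᵐ u ∂β, ‖u‖ ≤ R := by
    filter_upwards [ae_restrict_mem measurableSet_closedBall] with u hu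
    exact (mem_closedBall_zero_iff.1 hu).trans (hη1.trans hR1)
  have hK3 : ∀ᵐ z ∂(μ.prod μ).prod β, (‖z.1.1‖ ≤ R ∧ ‖z.1.2‖ ≤ R) ∧ ‖z.2‖ ≤ R :=
    (Measure.quasiMeasurePreserving_fst.ae (ae_prod_bdd hR)).and
      (Measure.quasiMeasurePreserving_snd.ae hβa)
  have hK3' : ∀ᵐ z ∂(μ.prod μ).prod β,
      z ∈ (closedBall (0 : V) R ×ˢ closedBall (0 : V) R) ×ˢ closedBall (0 : V) R := by
    filter_upwards [hK3] with z hz
    simpa using hz
  have hc3 := hcp.prod (isCompact_closedBall (0 : V) R)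
  have hac : ν ≪ volume := by
    apply ac_of_decay ν (C := (|L| * ((μ.prod μ).prod β).real Set.univ + |C|) ^ 2)
      (q := 2 * min 1 q) (by have := lt_min (show (1 : ℝ) / 2 < 1 by norm_num) hq; linarith)
    intro τ hτ
    have hτ0 : 0 < τ := by linarith
    have i1 : Integrable (fun z : (V × V) × V => Fk e M τ z.1.1 z.1.2 *
        cexp ((2 * ⟪z.2, sb z.1.2 z.1.1⟫_ℝ : ℝ) * I)) ((μ.prod μ).prod β) :=
      int_of_compact hc3 hK3' (by unfold sb; fun_prop)
    have i2 : Integrable (fun z : (V × V) × V => Fk e M τ (z.1.1 + τ⁻¹ • z.2) z.1.2)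
        ((μ.prod μ).prod β) := int_of_compact hc3 hK3' (by fun_prop)
    have e1 : charFun ν τ = ∫ z, Fk e M τ z.1.1 z.1.2 *
        cexp ((2 * ⟪z.2, sb z.1.2 z.1.1⟫_ℝ : ℝ) * I) ∂(μ.prod μ).prod β := by
      rw [charFun_apply_real, hν, integral_map hφc.aemeasurable (by fun_prop),
        integral_withDensity_eq_integral_toReal_smul hWc.measurable.ennreal_ofReal
          (Eventually.of_forall fun _ => ENNReal.ofReal_lt_top), integral_prod _ i1]
      apply integral_congr_ae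
      filter_upwards [hcc] with p hp
      rw [integral_const_mul, hβ, cc_eq,
        ENNReal.toReal_ofReal (mul_nonneg (wt_nonneg _ _ _ _) hp.le), real_smul, Fk]
      push_cast
      rw [show (τ : ℂ) * (ph p.1 p.2 : ℝ) * I = I * τ * (ph p.1 p.2 : ℝ) by ring]; ring
    have e2 : ∫ z, Fk e M τ (z.1.1 + τ⁻¹ • z.2) z.1.2 ∂(μ.prod μ).prod β =
        ∫ a, ∫ u in closedBall (0 : V) η, gg μ e M τ (a + τ⁻¹ • u) ∂volume ∂μ := by
      rw [integral_prod _ i2, integral_prod _ i2.integral_prod_left]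
      apply integral_congr_ae
      refine Eventually.of_forall fun a => ?_
      apply integral_integral_swap (f := fun b u => Fk e M τ (a + τ⁻¹ • u) b)
      refine int_of_compact hcp ?_ (by unfold Function.uncurry; fun_prop)
      filter_upwards [Measure.quasiMeasurePreserving_fst.ae hR,
        Measure.quasiMeasurePreserving_snd.ae hβa] with p h1 h2
      simp [h1, h2]
    have b1 := hT e he τ hτ
    have b2 : ‖charFun ν τ - ∫ a, ∫ u in closedBall (0 : V) η,
        gg μ e M τ (a + τ⁻¹ • u) ∂volume ∂μ‖ ≤ L * τ⁻¹ * ((μ.prod μ).prod β).real Set.univ := by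
      rw [e1, ← e2, ← integral_sub i1 i2]
      apply norm_integral_le_of_norm_le_const
      filter_upwards [hK3] with z hz using hL τ hτ _ _ _ hz.1.1 hz.1.2 hz.2
    have b3 : τ⁻¹ ≤ τ ^ (-min 1 q) := by
      rw [← Real.rpow_neg_one]
      exact Real.rpow_le_rpow_of_exponent_le hτ (neg_le_neg (min_le_left _ _))
    have b4 : τ ^ (-q) ≤ τ ^ (-min 1 q) :=
      Real.rpow_le_rpow_of_exponent_le hτ (neg_le_neg (min_le_right _ _))
    have b5 : ‖charFun ν τ‖ ≤ (|L| * ((μ.prod μ).prod β).real Set.univ + |C|) * τ ^ (-min 1 q) := by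
      refine (norm_le_norm_sub_add _ _).trans ((add_le_add b2 b1).trans ?_)
      rw [add_mul, mul_right_comm |L|]
      gcongr <;> exact le_abs_self _
    calc _ ≤ ((|L| * ((μ.prod μ).prod β).real Set.univ + |C|) * τ ^ (-min 1 q)) ^ 2 := by gcongr
      _ = _ := by
        rw [mul_pow, ← Real.rpow_natCast (τ ^ _), ← Real.rpow_mul hτ0.le]
        congr 2; push_cast; ring
  have h1 := hac h0
  rw [hν, Measure.map_apply hφc.measurable hA,
    withDensity_apply_eq_zero hWc.measurable.ennreal_ofReal] at h1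
  filter_upwards [measure_eq_zero_iff_ae_notMem.1 h1, hcc] with p hp hc hpA
  by_contra hne
  apply hp
  refine ⟨(ENNReal.ofReal_pos.2 (mul_pos ?_ hc)).ne', hpA⟩
  exact lt_of_le_of_ne (wt_nonneg _ _ _ _) (pow_ne_zero _ hne).symm

theorem two_null {μ : Measure V} {σ : ℝ} (h : Frost μ σ)
    (hσ : (finrank ℝ V : ℝ) + 1 < 2 * σ) {A : Set ℝ} (hA : MeasurableSet A) (h0 : volume A = 0) :
    (μ.prod μ) {p | ph p.1 p.2 ∈ A} = 0 := by
  have := h.fin
  set e := stdOrthonormalBasis ℝ V with he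
  have h1 := ae_all_iff.2 fun i => weighted_null h hσ (e.orthonormal.1 i).le hA h0
  have h2 := measure_eq_zero_iff_ae_notMem.1 (h.orth_null (by linarith))
  have h3 : (μ.prod μ) {p | sb p.2 p.1 = 0} = 0 := by
    have hm : MeasurableSet {p : V × V | sb p.2 p.1 = 0} :=
      (isClosed_eq (by unfold sb; fun_prop) continuous_const).measurableSet
    rw [Measure.prod_apply_symm hm, lintegral_eq_zero_iff' (measurable_measure_prodMk_right hm).aemeasurable]
    have hD0 : (0 : ℝ) ≤ finrank ℝ V := Nat.cast_nonneg _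
    have h4 := measure_eq_zero_iff_ae_notMem.1 (h.null_subspace ⊥ (by simp; linarith))
    filter_upwards [h4] with b hb
    have hb0 : b ≠ 0 := by simpa using hb
    have h5 : (1 : ℝ) ≤ finrank ℝ V := by
      have := (ℝ ∙ b).finrank_le
      rw [finrank_span_singleton hb0] at this
      exact_mod_cast this
    refine measure_mono_null (fun a ha => ?_)
      (h.null_subspace (ℝ ∙ b) (by rw [finrank_span_singleton hb0]; push_cast; linarith))
    have h6 : ‖b‖ ^ 2 • a = ⟪b, a⟫_ℝ • b := sub_eq_zero.1 ha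
    have h7 : ‖b‖ ^ 2 ≠ 0 := by simpa using hb0
    refine Submodule.mem_span_singleton.2 ⟨(‖b‖ ^ 2)⁻¹ * ⟪b, a⟫_ℝ, ?_⟩
    rw [mul_smul, ← h6, smul_smul, inv_mul_cancel₀ h7, one_smul]
  rw [measure_eq_zero_iff_ae_notMem]
  filter_upwards [h1, h2, measure_eq_zero_iff_ae_notMem.1 h3] with p p1 p2 p3 hpA
  apply p3
  apply e.repr.injective
  ext i
  have := (mul_eq_zero.1 (p1 i hpA)).resolve_left p2
  rw [← sb_symm, real_inner_comm] at this
  simp [e.repr_apply_apply, this]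

end Pool.Agent.MP_83cc0d_an

end

-- part MP_83cc0d_an.Main
section

namespace Pool.Agent.MP_83cc0d_an

open MeasureTheory Filter Topology Metric Module
open scoped ENNReal InnerProductSpace

lemma det_gram_cons {V : Type} [NormedAddCommGroup V] [InnerProductSpace ℝ V]
    [FiniteDimensional ℝ V] {n : ℕ} {e : V} (he : e ≠ 0) (y : Fin n → V) :
    (Matrix.gram ℝ (Fin.cons e y : Fin (n + 1) → V)).det =
      ‖e‖ ^ 2 * (Matrix.gram ℝ fun i => (ℝ ∙ e)ᗮ.orthogonalProjectionOnto (y i)).det := by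
  have hen : 0 < ‖e‖ := norm_pos_iff.2 he
  set K := (ℝ ∙ e)ᗮ with hK
  have hp : ∀ x : V, (K.orthogonalProjectionOnto x : V) = x - (⟪e, x⟫_ℝ / ‖e‖ ^ 2) • e := by
    intro x
    have h1 : (K.orthogonalProjectionOnto x : V) = x - (ℝ ∙ e).starProjection x :=
      Submodule.starProjection_orthogonal_val x
    rw [h1, Submodule.starProjection_singleton]
    simp
  set z : Fin (n + 1) → V := Fin.cons e y with hz
  set w : Fin (n + 1) → V := Fin.cons e fun i => (K.orthogonalProjectionOnto (y i) : V) with hw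
  set c : Fin (n + 1) → ℝ := Fin.cons 0 fun i => ⟪e, y i⟫_ℝ / ‖e‖ ^ 2 with hc
  have h1 : (Matrix.gram ℝ z).det = (Matrix.of fun i j => ⟪w i, z j⟫_ℝ).det := by
    apply Matrix.det_eq_of_forall_row_eq_smul_add_const c 0 rfl
    intro i j
    refine Fin.cases ?_ (fun i => ?_) i
    · simp [hz, hw, hc]
    · simp only [hz, hw, hc, Matrix.gram_apply, Matrix.of_apply, Fin.cons_succ, Fin.cons_zero, hp,
        inner_sub_left, inner_smul_left, conj_trivial]
      ring
  have h2 : ∀ x : V, ⟪(K.orthogonalProjectionOnto x : V), e⟫_ℝ = 0 := fun x =>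
    Submodule.mem_orthogonal_singleton_iff_inner_left.1 (K.orthogonalProjectionOnto x).2
  rw [h1, Matrix.det_succ_column_zero, Fin.sum_univ_succ, Finset.sum_eq_zero]
  · simp only [hz, hw, Fin.val_zero, pow_zero, one_mul, Matrix.of_apply, Fin.cons_zero, add_zero,
      real_inner_self_eq_norm_sq]
    congr 2
    ext i j
    simp only [Matrix.submatrix_apply, Fin.succAbove_zero, Matrix.of_apply, Fin.cons_succ,
      Matrix.gram_apply, Submodule.coe_inner]
    rw [hp (y j), inner_sub_right, inner_smul_right, h2, mul_zero, sub_zero]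
  · intro i _
    simp only [hz, hw, Matrix.of_apply, Fin.cons_succ, Fin.cons_zero, h2, mul_zero, zero_mul]

lemma cont_det_gram {V : Type} [NormedAddCommGroup V] [InnerProductSpace ℝ V] (n : ℕ) :
    Continuous fun x : Fin n → V => (Matrix.gram ℝ x).det := by
  apply Continuous.matrix_det
  apply continuous_matrix
  intro i j
  simp only [Matrix.gram_apply]
  fun_prop

theorem gram_null (j : ℕ) : ∀ (V : Type) [NormedAddCommGroup V] [InnerProductSpace ℝ V]
    [FiniteDimensional ℝ V] [MeasurableSpace V] [BorelSpace V] (μ : Measure V) (σ : ℝ),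
    Frost μ σ → (finrank ℝ V : ℝ) + j + 1 < 2 * σ → ∀ A : Set ℝ, MeasurableSet A →
    volume A = 0 →
    (Measure.pi fun _ : Fin (j + 2) => μ) {x | (Matrix.gram ℝ x).det ∈ A} = 0 := by
  induction j with
  | zero =>
    intro V _ _ _ _ _ μ σ h hσ A hA h0
    have := h.fin
    have h1 := two_null h (by simpa using hσ) hA h0
    rw [← (measurePreserving_finTwoArrow μ).measure_preimage_equiv] at h1
    rw [← h1]
    congr 1
    ext x
    have e1 : (Matrix.gram ℝ x).det = ph (x 0) (x 1) := by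
      refine (Matrix.det_fin_two (Matrix.gram ℝ (x : Fin 2 → V))).trans ?_
      simp only [Matrix.gram_apply, ph, real_inner_self_eq_norm_sq, real_inner_comm (x 0) (x 1), sq]
    simp only [Set.mem_ofPred_eq, Set.mem_preimage, MeasurableEquiv.finTwoArrow_apply, e1]
  | succ j ih =>
    intro V _ _ _ _ _ μ σ h hσ A hA h0
    have := h.fin
    have hD0 : (0 : ℝ) ≤ finrank ℝ V := Nat.cast_nonneg _
    have hj0 : (0 : ℝ) ≤ j := Nat.cast_nonneg _
    push_cast at hσ
    have hm : MeasurableSet {x : Fin (j + 3) → V | (Matrix.gram ℝ x).det ∈ A} :=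
      (cont_det_gram _).measurable hA
    have hmp := (measurePreserving_piFinSuccAbove (fun _ : Fin (j + 3) => μ) 0).symm
    rw [← hmp.measure_preimage hm.nullMeasurableSet,
      Measure.measure_prod_null (hmp.measurable hm)]
    have h4 := measure_eq_zero_iff_ae_notMem.1 (h.null_subspace ⊥ (by simp; linarith))
    filter_upwards [h4] with e he
    have he0 : e ≠ 0 := by simpa using he
    have hen : 0 < ‖e‖ := norm_pos_iff.2 he0
    set K := (ℝ ∙ e)ᗮ with hK
    have hr : (finrank ℝ K : ℝ) = finrank ℝ V - 1 := by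
      have h1 := (ℝ ∙ e).finrank_add_finrank_orthogonal
      rw [finrank_span_singleton he0] at h1
      rw [← h1]; push_cast; ring
    have hB : volume ((fun t : ℝ => ‖e‖ ^ 2 * t) ⁻¹' A) = 0 := by
      rw [Real.volume_preimage_mul_left (by positivity), h0, mul_zero]
    have h1 := ih K (μ.map K.orthogonalProjectionOnto) (σ - 1) (h.proj (by linarith) he0)
      (by rw [hr]; linarith) _ (measurable_const_mul _ hA) hB
    have hpm : Measurable K.orthogonalProjectionOnto :=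
      K.orthogonalProjectionOnto.continuous.measurable
    have h2 := measurePreserving_pi (fun _ : Fin (j + 2) => μ)
      (fun _ => μ.map K.orthogonalProjectionOnto) (f := fun _ => K.orthogonalProjectionOnto)
      (fun _ => ⟨hpm, rfl⟩)
    have hm2 : MeasurableSet {x : Fin (j + 2) → K |
        (Matrix.gram ℝ x).det ∈ (fun t : ℝ => ‖e‖ ^ 2 * t) ⁻¹' A} :=
      (cont_det_gram _).measurable (measurable_const_mul _ hA)
    rw [← h2.measure_preimage hm2.nullMeasurableSet] at h1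
    rw [Pi.zero_apply, ← h1]
    congr 1
    ext y
    simp only [Set.mem_preimage, Set.mem_ofPred_eq]
    rw [MeasurableEquiv.piFinSuccAbove_symm_apply, Fin.insertNthEquiv_zero, ← det_gram_cons he0]
    rfl

lemma frost_of_potential {V : Type} [NormedAddCommGroup V] [MeasurableSpace V] [BorelSpace V]
    [SecondCountableTopology V] (μ : Measure V) [IsFiniteMeasure μ] {s : ℝ} (hs : 0 ≤ s)
    {R : ℝ} (hR : ∀ᵐ x ∂μ, ‖x‖ ≤ R) (x₀ : V) (M : ℕ) :
    Frost ((μ.restrict {x | ∫⁻ y, edist x y ^ (-s) ∂μ ≤ M}).map fun x => x - x₀) s := by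
  set T := {x | ∫⁻ y, edist x y ^ (-s) ∂μ ≤ M} with hT
  have hm : Measurable fun x : V => x - x₀ := by fun_prop
  refine ⟨inferInstance, ⟨R + ‖x₀‖, ?_⟩, M * 2 ^ s, fun x r hr _ => ?_⟩
  · rw [ae_map_iff hm.aemeasurable (isClosed_le continuous_norm continuous_const).measurableSet]
    filter_upwards [ae_restrict_of_ae hR] with x hx
    exact (norm_sub_le _ _).trans (by linarith)
  · rw [map_measureReal_apply hm measurableSet_closedBall, measureReal_restrict_apply
      (hm measurableSet_closedBall)]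
    rcases ((fun x => x - x₀) ⁻¹' closedBall x r ∩ T).eq_empty_or_nonempty with h | ⟨y, hy, hyT⟩
    · rw [h, measureReal_empty]; positivity
    have hsub : (fun x => x - x₀) ⁻¹' closedBall x r ∩ T ⊆
        {z | ENNReal.ofReal (2 * r) ^ (-s) ≤ edist y z ^ (-s)} := by
      rintro z ⟨hz, -⟩
      have h1 : dist y z ≤ 2 * r := by
        have := dist_triangle_right (y - x₀) (z - x₀) x
        rw [dist_sub_right] at this
        have h2 : dist (y - x₀) x ≤ r := hy
        have h3 : dist (z - x₀) x ≤ r := hz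
        linarith
      rw [Set.mem_ofPred_eq, ENNReal.rpow_neg, ENNReal.rpow_neg, ENNReal.inv_le_inv, edist_dist]
      exact ENNReal.rpow_le_rpow (ENNReal.ofReal_le_ofReal h1) hs
    have h2 := mul_meas_ge_le_lintegral₀ (μ := μ) (f := fun z => edist y z ^ (-s))
      (by fun_prop) (ENNReal.ofReal (2 * r) ^ (-s))
    have h3 := (mul_le_mul_right (measure_mono hsub) _).trans (h2.trans hyT)
    have h4 : 0 < 2 * r := by positivity
    rw [ENNReal.ofReal_rpow_of_pos h4, ← ofReal_measureReal, ← ENNReal.ofReal_mul (by positivity),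
      ← ENNReal.ofReal_natCast, ENNReal.ofReal_le_ofReal_iff (by positivity),
      Real.rpow_neg h4.le, inv_mul_le_iff₀ (by positivity), Real.mul_rpow (by norm_num) hr.le] at h3
    linarith

theorem energy_null {d k : ℕ} (hk : 2 ≤ k) (μ : Measure (EuclideanSpace ℝ (Fin d)))
    [IsFiniteMeasure μ] {R : ℝ} (hR : ∀ᵐ x ∂μ, ‖x‖ ≤ R) {s : ℝ} (hs : ((d : ℝ) + k - 1) / 2 < s)
    (hI : energy s μ < ∞) (x₀ : EuclideanSpace ℝ (Fin d)) {A : Set ℝ} (hA : MeasurableSet A)
    (h0 : volume A = 0) :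
    (Measure.pi fun _ : Fin k => μ) {x | (Matrix.gram ℝ fun i => x i - x₀).det ∈ A} = 0 := by
  obtain ⟨j, rfl⟩ : ∃ j, k = j + 2 := ⟨k - 2, by omega⟩
  push_cast at hs
  have hd0 : (0 : ℝ) ≤ d := Nat.cast_nonneg _
  have hj0 : (0 : ℝ) ≤ j := Nat.cast_nonneg _
  set U : EuclideanSpace ℝ (Fin d) → ℝ≥0∞ := fun x => ∫⁻ y, edist x y ^ (-s) ∂μ with hU
  have hUm : Measurable U := Measurable.lintegral_prod_right' (f := fun p :
    EuclideanSpace ℝ (Fin d) × EuclideanSpace ℝ (Fin d) => edist p.1 p.2 ^ (-s)) (by fun_prop)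
  have h1 : ∀ᵐ x ∂μ, U x < ∞ := ae_lt_top hUm hI.ne
  have h2 : ∀ᵐ x ∂(Measure.pi fun _ : Fin (j + 2) => μ), ∀ i, U (x i) < ∞ :=
    ae_all_iff.2 fun i => (Measure.quasiMeasurePreserving_eval (fun _ : Fin (j + 2) => μ) i).ae h1
  have hm : MeasurableSet {x : Fin (j + 2) → EuclideanSpace ℝ (Fin d) |
      (Matrix.gram ℝ x).det ∈ A} := (cont_det_gram _).measurable hA
  have hsub : Measurable fun x : EuclideanSpace ℝ (Fin d) => x - x₀ := by fun_prop
  have h3 : ∀ M : ℕ, (Measure.pi fun _ : Fin (j + 2) => μ)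
      ({x | (Matrix.gram ℝ fun i => x i - x₀).det ∈ A} ∩ Set.univ.pi fun _ => {x | U x ≤ M}) = 0 := by
    intro M
    have h4 := gram_null j _ _ s (frost_of_potential μ (by linarith) hR x₀ M)
      (by simp only [finrank_euclideanSpace, Fintype.card_fin]; linarith) A hA h0
    have h5 := measurePreserving_pi (fun _ : Fin (j + 2) => μ.restrict {x | U x ≤ M})
      (fun _ => (μ.restrict {x | U x ≤ M}).map fun x => x - x₀) (f := fun _ x => x - x₀)
      (fun _ => ⟨hsub, rfl⟩)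
    rw [← h5.measure_preimage hm.nullMeasurableSet, ← Measure.restrict_pi_pi,
      Measure.restrict_apply (h5.measurable hm)] at h4
    exact h4
  rw [measure_eq_zero_iff_ae_notMem]
  filter_upwards [h2, ae_all_iff.2 fun M => measure_eq_zero_iff_ae_notMem.1 (h3 M)] with x hx hM hxA
  obtain ⟨M, hM'⟩ := ENNReal.exists_nat_gt (ENNReal.sum_lt_top.2 fun i (_ : i ∈ Finset.univ) =>
    hx i).ne
  exact hM M ⟨hxA, fun i _ => (Finset.single_le_sum (f := fun i => U (x i))
    (fun _ _ => bot_le) (Finset.mem_univ i)).trans hM'.le⟩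

lemma meas_pinnedVolume {d k : ℕ} (x₀ : EuclideanSpace ℝ (Fin d)) :
    Measurable (pinnedVolume (k := k) x₀) :=
  (Real.continuous_sqrt.comp ((cont_det_gram k).comp
    (f := fun (x : Fin k → EuclideanSpace ℝ (Fin d)) i => x i - x₀) (by fun_prop))).measurable

theorem pinned_ac {d k : ℕ} (hk : 2 ≤ k) (μ : Measure (EuclideanSpace ℝ (Fin d)))
    [IsFiniteMeasure μ] {R : ℝ} (hR : ∀ᵐ x ∂μ, ‖x‖ ≤ R) {s : ℝ} (hs : ((d : ℝ) + k - 1) / 2 < s)
    (hI : energy s μ < ∞) (x₀ : EuclideanSpace ℝ (Fin d)) :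
    (Measure.pi fun _ : Fin k => μ).map (pinnedVolume x₀) ≪ volume := by
  refine Measure.AbsolutelyContinuous.mk fun A hA h0 => ?_
  rw [Measure.map_apply (meas_pinnedVolume x₀) hA]
  have h1 : volume ((fun t : ℝ => t ^ 2) '' A) = 0 :=
    addHaar_image_eq_zero_of_differentiableOn_of_addHaar_eq_zero volume (by fun_prop) h0
  have h2 := energy_null hk μ hR hs hI x₀ (measurableSet_toMeasurable volume _)
    ((measure_toMeasurable _).trans h1)
  refine measure_mono_null (fun x hx => ?_) h2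
  have h3 : (Matrix.gram ℝ fun i => x i - x₀).det ∈ (fun t : ℝ => t ^ 2) '' A :=
    ⟨_, hx, Real.sq_sqrt (Matrix.posSemidef_gram ℝ fun i => x i - x₀).det_nonneg⟩
  exact subset_toMeasurable volume _ h3

end Pool.Agent.MP_83cc0d_an

end
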